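import Pool.Agent.P8H11.AL.Fin

/-!
# The 5-part of the formula of Birch and Swinnerton-Dyer for all twists `E_D ⊗ M` of 5-power order

`D` is a squarefree positive integer, `K = ℚ(√-D)`, such that 2, 5, 11 are inert in `K` and 3 does not
split in `K`.  `E_D` is the twist of `X_0(11)` by `-D`, with the minimal equation
`y² + y = x³ + D x² - 10 D² x + (79 D³ - 1) / 4` of discriminant `-11⁵ D⁶` and conductor `11 D²`.
`M = ℤ^g`, `g ≥ 1`, is ANY lattice with an action `ρ` of `Gal(ℚ(ζ_m)/ℚ) = (ℤ/m)ˣ` through a group of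
exponent a power of 5, where `m` is any number prime to `11 D`: every ramification outside of the
conductor of `E_D` is allowed, wild ramification at 5 included.  `A = E_D ⊗ M` is an abelian variety over
`ℚ` of dimension `g`, its dual is `A' = E_D ⊗ M^∨`.  (As `E_D` has no complex multiplication, `A` is any
abelian variety over `ℚ` that is isomorphic to `E_D^g` over an abelian extension of `ℚ` of degree a power
of 5 that is unramified at `11 D`; for example the restriction of scalars of `E_D` from such an extension.)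

We prove without any hypothesis, for all these `D` and `M`, the equivalence of

* (a) `L(A, 1) / V_∞` is a unit at 5, where `L(A, s)` is the `L`-function of Hasse and Weil (all the Euler
  factors included); it is entire, and `L(A, 1) / V_∞` is always a rational number that is integral at 5;
* (b) `A(ℚ)` is finite of order prime to 5, the 5-primary part of `Ш(A/ℚ)` is zero, and all the
  Tamagawa numbers of `A` are prime to 5;
* (b') the same for the dual `A'`;
* (c) 5 does not divide the class number `h(K)`, and `M` is unramified at all the primes that split in `K`.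

So the formula of Birch and Swinnerton-Dyer for `A` holds up to units at 5 if (c) holds, all its terms being
units, and if (c) does not hold then neither side is a unit: `L(A, 1)` is zero or has the factor 5, and
`A(ℚ)` is infinite or `Ш(A/ℚ)` or a component group has elements of order 5 (`A(ℚ)` has no points of order
5, which is also proved).  If `M` is unramified at the primes that split in `K`, all the Tamagawa numbers
are prime to 5 (proved), so that `A(ℚ)` and `Ш(A/ℚ)` have trivial 5-part if and only if 5 does not divide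
`h(K)`.

The volume.  `V_∞ = realPeriod^g / √cond(M)` is the volume of `A(ℝ)` for the Néron differential, up to a
unit at 5: the complex conjugation acts trivially on `M`; for the differential `ω` given by a basis of `M`
and the Néron differential of `E_D` the volume of `A(ℝ)` is `realPeriod^g`, and `∫_{A(ℚ_l)} |ω|_l`, divided by
the value `P_l(1/l)` of the Euler polynomial, is the Tamagawa number for `l ∤ m`, and for `l ∣ m` the
Tamagawa number times `l^(-a/2)` with `l^a` the `l`-part of `cond(M)`, up to a unit at 5.  (For `l ≠ 5` the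
powers of `l` are units at 5, and both sides have the 5-part of `#A(ℚ_l)_tors`.  For `l = 5`: the curve has
good reduction, `a_5 = -1`, so `E_D(F) ⊗ ℤ_5` is free over `ℤ_5[G]` for an abelian extension `F` of `ℚ_5` of
5-power degree with group `G`; so both sides are multiplicative in `M` and invariant under isogenies, and it
is enough to know the formula for restrictions of scalars.)

The proof.  Algebraic side: `E_D[5]` is the sum of the characters `χ` and `χ ω`, where `χ` is the
character of `K` and `ω` the cyclotomic character modulo 5.  If 5 does not divide `h(K)`, the component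
of a Selmer class in `χ` gives an unramified cyclic extension of `K` of degree 5, which does not exist by
Hilbert 94; the other component gives an element of `K` whose ideal is the fifth power of an ideal, so a
fifth power.  The passage from `E_D` to `A` uses at the primes `q` at which `M` is unramified that
`H¹(F/ℚ_q, E_D(F) ⊗ M)` is zero for unramified extensions `F` of 5-power degree (the theorem of Lang and the
formal group), at the ramified primes that are inert in `K` that there are no points of order 5, and at 5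
that the subgroup `χ ω` is the kernel of the reduction.  If 5 divides `h(K)`, an ideal class of order 5
gives a Kummer cocycle with values in the subgroup `χ ω` which is a Selmer class; its product with a vector
of `M / 5` fixed by the Galois group is a Selmer class of `A`; at 5 this uses that the points over `ℚ_5` are
norms modulo 5 from the field `F` of `M`, as `E_D(F) / 5` is free over the group ring (it has `5^[F : ℚ_5]`
elements and its invariants have dimension one).  If `M` is ramified at a prime `l` that splits in `K` and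
5 does not divide `h(K)`, the element `π π'⁴`, `(π) = λ^h(K)`, `λ ∣ l`, gives a class in the `χ ω`-part that
is ramified only at `l`; there its restriction to the inertia group factors through the quotient of order 5
of `(ℤ/l)ˣ`, so its product with a fixed vector of `M / 5` of the form `τ y - y`, `τ` a generator of the
inertia group, is unramified at `l` up to a coboundary, and it is an element of order 5 of `Ш(A/ℚ)` if the
Tamagawa number at `l` is prime to 5.

Analytic side: the newform of `E_D` is the twist of the one of `X_0(11)`, and `L(E_D, 1)` is a sum of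
modular symbols of `X_0(11)`.  The symbols `{∞, b/D}` are congruent modulo 5 to the ones of the
logarithmic derivative of `η(11 τ)¹² / η(τ)¹²`, and the sum is the unit times `B₁(χ)`, which is `h(K)` by the
class number formula.  The algebraic part of the value at 1 of the twist of `E_D` by a Dirichlet character
of 5-power order is congruent to the one of `E_D` times the product of the numbers `l + 1 - a_l` for the
primes `l ≠ 5` that divide the conductor, times a unit at 5 (this is the average of the modular symbols over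
the residue classes); 5 divides `l + 1 - a_l` if and only if `l` splits in `K`, as `l ≡ 1` modulo 5.

The local theory at unramified places is by helper17, 24, 29, 54, 55, 57, 72, 76, 80, 89 and 92; the
parts on `X_0(11)` and class numbers by helper11, 45, 48, 52, 55, 56, 63, 75, 78, 86, 88, 89 and 93; the
parts on wild ramification, split primes and Tamagawa numbers by helper4, 11, 20, 22, 32, 44, 45, 52,
65, 76, 85, 86 and 87.
-/

set_option autoImplicit false

open NumberField WeierstrassCurve MeasureTheory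
open UpperHalfPlane MatrixGroups CongruenceSubgroup

namespace Pool.Agent.Results.MP_dfae13_nt.FivePartAllLattices

open scoped Classical

open Pool.Agent.TH841.SH.D (Pt act Gal)

/-- The curve given by the equation of `W` over the ring `R`. -/
abbrev base (W : WeierstrassCurve ℤ) (R : Type) [CommRing R] : WeierstrassCurve R :=
  W.map (Int.castRingHom R)

/-- The number of the affine points `(x, y)` over the ring `R`. -/
noncomputable def pts (W : WeierstrassCurve ℤ) (R : Type) [CommRing R] : ℕ :=
  Nat.card {P : R × R // (base W R).toAffine.Equation P.1 P.2}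

/-- `4 x³ + b₂ x² + 2 b₄ x + b₆ = (2 y + a₁ x + a₃)²`, where `b₂ = a₁² + 4 a₂`,
`b₄ = 2 a₄ + a₁ a₃`, `b₆ = a₃² + 4 a₆`. -/
def cubic (W : WeierstrassCurve ℤ) {R : Type} [CommRing R] (x : R) : R :=
  4 * x ^ 3 + W.b₂ * x ^ 2 + 2 * W.b₄ * x + W.b₆

/-- `∫_{W(ℝ)} |ω|` with `ω = dx / (2 y + a₁ x + a₃)`, as an integral over `x`: two real points lie
over each `x` with `cubic x > 0`. -/
noncomputable def realPeriod (W : WeierstrassCurve ℤ) : ℝ :=
  2 * ∫ x in {x : ℝ | 0 < cubic W x}, 1 / √(cubic W x)



section tensor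

/-! ### The abelian variety `A = E ⊗ M`, `M = ℤ^g`

Its points over an algebraic closure of `ℚ` are the `g`-tuples of points of `E`; the Galois group of `ℚ`
acts on them by its action on `E` and the matrices `R(σ)`. -/

/-- The action of an integral matrix on `ℤ^g ⊗ G = G^g`. -/
def mat {G : Type} [AddCommGroup G] {g : ℕ} (A : Matrix (Fin g) (Fin g) ℤ) (P : Fin g → G) :
    Fin g → G := fun i => ∑ j, A i j • P j

variable {g : ℕ} (W : WeierstrassCurve ℤ) (R : Gal ℚ →* GL (Fin g) ℤ)

/-- The points of `A` over an extension of `ℚ` over which the action on `M` is trivial. -/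
abbrev PtA (g : ℕ) (L : Type) [Field L] [Algebra ℚ L] : Type := Fin g → Pt (base W ℚ) L

/-- The action of the Galois group on the points of `A`: `σ` applied to the coordinates, and then the
matrix `R(σ)`. -/
noncomputable def actA (σ : Gal ℚ) (P : PtA W g (AlgebraicClosure ℚ)) :
    PtA W g (AlgebraicClosure ℚ) :=
  mat (R σ : Matrix (Fin g) (Fin g) ℤ) (fun i => act (base W ℚ) σ.toAlgHom (P i))

/-- `A(ℚ)`. -/
def ptsA : Set (PtA W g (AlgebraicClosure ℚ)) := {P | ∀ σ : Gal ℚ, actA W R σ P = P}

/-- `f` is a continuous cocycle with values in `A`: `f (σ τ) = f σ + σ (f τ)`. -/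
def IsCocycle (f : Gal ℚ → PtA W g (AlgebraicClosure ℚ)) : Prop :=
  IsLocallyConstant f ∧ ∀ σ τ : Gal ℚ, f (σ * τ) = f σ + actA W R σ (f τ)

/-- `f` is a coboundary: `f σ = σ P - P`. -/
def IsCoboundary (f : Gal ℚ → PtA W g (AlgebraicClosure ℚ)) : Prop :=
  ∃ P : PtA W g (AlgebraicClosure ℚ), ∀ σ : Gal ℚ, f σ = actA W R σ P - P

/-- For every embedding of the algebraic closures the restriction of `f` to the absolute Galois
group of `K` is a coboundary: `f σ = τ P - P` for `τ` in this group with restriction `σ`. -/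
def LocTriv (K : Type) [Field K] [Algebra ℚ K] (f : Gal ℚ → PtA W g (AlgebraicClosure ℚ)) : Prop :=
  ∀ ι : AlgebraicClosure ℚ →ₐ[ℚ] AlgebraicClosure K, ∃ P : PtA W g (AlgebraicClosure K),
    ∀ (τ : Gal K) (σ : Gal ℚ), (∀ x, τ (ι x) = ι (σ x)) →
      (fun i => act (base W ℚ) ι (f σ i)) = mat (R σ : Matrix (Fin g) (Fin g) ℤ)
        (fun i => act (base W ℚ) (τ.toAlgHom.restrictScalars ℚ) (P i)) - P

/-- `f` is a continuous cocycle that is locally trivial at all the places of `ℚ`; its class is an
element of `Ш(A/ℚ)`, and this is zero if and only if `f` is a coboundary. -/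
def IsShaCocycle (f : Gal ℚ → PtA W g (AlgebraicClosure ℚ)) : Prop :=
  IsCocycle W R f ∧ (∀ (p : ℕ) [Fact p.Prime], LocTriv W R ℚ_[p] f) ∧ LocTriv W R ℝ f

/-- `f` is a cocycle of the absolute Galois group of the field `K` with values in `A`: `f (τ τ') = f τ + τ
(f τ')`.  The group acts on the coordinates and, by restriction along the embedding `ι`, on `M`. -/
def IsLocCocycle (K : Type) [Field K] [Algebra ℚ K] (ι : AlgebraicClosure ℚ →ₐ[ℚ] AlgebraicClosure K)
    (f : Gal K → PtA W g (AlgebraicClosure K)) : Prop :=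
  ∀ (τ τ' : Gal K) (σ : Gal ℚ), (∀ x, τ (ι x) = ι (σ x)) →
    f (τ * τ') = f τ + mat (R σ : Matrix (Fin g) (Fin g) ℤ)
      (fun i => act (base W ℚ) (τ.toAlgHom.restrictScalars ℚ) (f τ' i))

/-- `f` is a coboundary over the field `K`: `f τ = τ P - P`. -/
def IsLocCoboundary (K : Type) [Field K] [Algebra ℚ K]
    (ι : AlgebraicClosure ℚ →ₐ[ℚ] AlgebraicClosure K) (f : Gal K → PtA W g (AlgebraicClosure K)) :
    Prop :=
  ∃ P : PtA W g (AlgebraicClosure K), ∀ (τ : Gal K) (σ : Gal ℚ), (∀ x, τ (ι x) = ι (σ x)) →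
    f τ = mat (R σ : Matrix (Fin g) (Fin g) ℤ)
      (fun i => act (base W ℚ) (τ.toAlgHom.restrictScalars ℚ) (P i)) - P

/-- The Tamagawa number of `A` at `q` is prime to `p`: the group `H¹(Gal(ℚ_q^nr / ℚ_q), A(ℚ_q^nr))`, whose
order is the Tamagawa number (Milne, Arithmetic Duality Theorems, I.3.8), has no elements of order `p`.
That is: a cocycle over `ℚ_q` with values in `A` that is trivial on the Galois group of `ℚ_q(μ_k)`, for
some `k` prime to `q`, and whose multiple by `p` is a coboundary, is a coboundary. -/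
def TamPrime (p q : ℕ) [Fact q.Prime] : Prop :=
  ∀ (ι : AlgebraicClosure ℚ →ₐ[ℚ] AlgebraicClosure ℚ_[q])
    (f : Gal ℚ_[q] → PtA W g (AlgebraicClosure ℚ_[q])), IsLocCocycle W R ℚ_[q] ι f →
    (∃ k : ℕ, 1 ≤ k ∧ k.Coprime q ∧ ∀ τ : Gal ℚ_[q],
      (∀ z : AlgebraicClosure ℚ_[q], z ^ k = 1 → τ z = z) → f τ = 0) →
    IsLocCoboundary W R ℚ_[q] ι (fun τ => p • f τ) → IsLocCoboundary W R ℚ_[q] ι f

end tensor

section lattice

variable {m g : ℕ} (ρ : (ZMod m)ˣ →* GL (Fin g) ℤ)

/-- The units modulo `m` that are congruent to `1` modulo the divisor `d` of `m`: the Galois group of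
`ℚ(ζ_m)` over `ℚ(ζ_d)`. -/
def level (m d : ℕ) : Subgroup (ZMod m)ˣ where
  carrier := {u | ∃ k : ZMod m, (u : ZMod m) = 1 + k * ((d : ℕ) : ZMod m)}
  one_mem' := ⟨0, by simp⟩
  mul_mem' := by
    rintro u v ⟨k, hk⟩ ⟨j, hj⟩
    refine ⟨k + j + k * j * ((d : ℕ) : ZMod m), ?_⟩
    rw [Units.val_mul, hk, hj]
    ring
  inv_mem' := by
    rintro u ⟨k, hk⟩
    refine ⟨-k * ((u⁻¹ : (ZMod m)ˣ) : ZMod m), ?_⟩
    have h1 : ((u⁻¹ : (ZMod m)ˣ) : ZMod m) * (u : ZMod m) = 1 := Units.inv_mul u
    have h2 : ((u⁻¹ : (ZMod m)ˣ) : ZMod m) * (1 + k * ((d : ℕ) : ZMod m)) = 1 := by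
      rw [← hk]; exact h1
    linear_combination h2

/-- The inertia group at the prime `l`: the units congruent to `1` modulo the part of `m` prime to `l`. -/
def inertia (m l : ℕ) : Subgroup (ZMod m)ˣ := level m (m / l ^ m.factorization l)

/-- The Frobenius elements at the prime `l`: the units congruent to `l` modulo the part of `m` prime to
`l`.  They are a coset of the inertia group. -/
def frobs (m l : ℕ) : Set (ZMod m)ˣ :=
  {u | ∃ k : ZMod m, (u : ZMod m) = l + k * ((m / l ^ m.factorization l : ℕ) : ZMod m)}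

/-- `M` is unramified at the prime `l`: the inertia group at `l` acts trivially. -/
def Unramified (l : ℕ) : Prop := ∀ u ∈ inertia m l, ρ u = 1

/-- The average of the matrices of the Frobenius elements at `l`.  It is the Frobenius automorphism on the
part of `M ⊗ ℚ` fixed by the inertia group and zero on the complement; if `l` does not divide `m` it is
`ρ(l)`. -/
noncomputable def frob [NeZero m] (l : ℕ) : Matrix (Fin g) (Fin g) ℚ :=
  ((frobs m l).ncard : ℚ)⁻¹ • ∑ u : (ZMod m)ˣ, if u ∈ frobs m l then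
    (ρ u : Matrix (Fin g) (Fin g) ℤ).map (Int.cast : ℤ → ℚ) else 0

/-- The Euler polynomial of `A = E ⊗ M` at the prime `l` (`E` has good reduction at the primes that divide
`m`): the determinant of `1 - T Frob_l` on the part of `H¹(A)` fixed by the inertia group, which is
`det (1 - a_l T F + l T² F²)`, without the last term if `E` has bad reduction, where `F` is the Frobenius
automorphism of the part of `M` fixed by inertia and `a_l = l - pts`, as `pts` does not count the point at
infinity. -/
noncomputable def P [NeZero m] (W : WeierstrassCurve ℤ) (l : ℕ) (T : ℂ) : ℂ :=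
  (1 - ((((l : ℤ) - pts W (ZMod l) : ℤ) : ℂ) * T) • (frob ρ l).map (Rat.cast : ℚ → ℂ) +
    ((if (l : ℤ) ∣ W.Δ then 0 else (l : ℂ)) * T ^ 2) • ((frob ρ l).map (Rat.cast : ℚ → ℂ)) ^ 2).det

/-- The vectors of `M` fixed by the subgroup `H`. -/
noncomputable def fixed (H : Subgroup (ZMod m)ˣ) : Submodule ℤ (Fin g → ℤ) :=
  ⨅ u : H, LinearMap.ker (Matrix.toLin' ((ρ (u : (ZMod m)ˣ) : Matrix (Fin g) (Fin g) ℤ) - 1))

/-- The Artin conductor of `M`: the exponent of `l` is the sum of `g - rank M^(U_k)` for
`k < v_l(m)`, where `U_k` is the group of the units congruent to `1` modulo `m / l^(k+1)`.  (The exponent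
of `l` in the conductor of a character is the number of the `k` such that it is not trivial on `U_k`.) -/
noncomputable def cond : ℕ :=
  ∏ l ∈ m.primeFactors, ∏ k ∈ Finset.range (m.factorization l),
    l ^ (g - Module.finrank ℤ (fixed ρ (level m (m / l ^ (k + 1)))))

/-- `V_∞`, the volume of `A(ℝ)` for the Néron differential of `A`, up to a unit at 5, if the complex
conjugation acts trivially on `M`. -/
noncomputable def Vinf (W : WeierstrassCurve ℤ) : ℝ := realPeriod W ^ g / √(cond ρ : ℝ)

end lattice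

/-- The contragredient: `A ↦ (A⁻¹)ᵀ`.  It gives the action on the dual lattice `M^∨`. -/
noncomputable def contra (g : ℕ) : GL (Fin g) ℤ →* GL (Fin g) ℤ where
  toFun A := ⟨((A⁻¹ : GL (Fin g) ℤ) : Matrix (Fin g) (Fin g) ℤ).transpose,
    ((A : GL (Fin g) ℤ) : Matrix (Fin g) (Fin g) ℤ).transpose, by
      rw [← Matrix.transpose_mul, ← Units.val_mul, mul_inv_cancel, Units.val_one,
        Matrix.transpose_one], by
      rw [← Matrix.transpose_mul, ← Units.val_mul, inv_mul_cancel, Units.val_one,
        Matrix.transpose_one]⟩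
  map_one' := by
    apply Units.ext
    show ((1⁻¹ : GL (Fin g) ℤ) : Matrix (Fin g) (Fin g) ℤ).transpose = 1
    rw [inv_one, Units.val_one, Matrix.transpose_one]
  map_mul' A B := by
    apply Units.ext
    show (((A * B)⁻¹ : GL (Fin g) ℤ) : Matrix (Fin g) (Fin g) ℤ).transpose =
      ((A⁻¹ : GL (Fin g) ℤ) : Matrix (Fin g) (Fin g) ℤ).transpose *
        ((B⁻¹ : GL (Fin g) ℤ) : Matrix (Fin g) (Fin g) ℤ).transpose
    rw [mul_inv_rev, Units.val_mul, Matrix.transpose_mul]

/-- The algebraic terms of the formula for `A = E ⊗ M` are trivial at `p`: the group `A(ℚ)` is finite of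
order prime to `p`, and the `p`-primary part of `Ш(A/ℚ)` is zero.  Here `R` is the action of the Galois
group of `ℚ` on `M = ℤ^g`; for `g = 1` and `R = 1` the abelian variety is `E`. -/
structure Trivial (p : ℕ) (W : WeierstrassCurve ℤ) {g : ℕ} (R : Gal ℚ →* GL (Fin g) ℤ) : Prop where
  points : Finite (ptsA W R) ∧ ¬ p ∣ Nat.card (ptsA W R)
  sha : ∀ f, IsShaCocycle W R f → ∀ k : ℕ, IsCoboundary W R (p ^ k • f) → IsCoboundary W R f

/-- The `L`-function of Hasse and Weil of `A = E ⊗ M` is entire, and `L(A, 1) = r V_∞` with the rational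
number `r`, where `V_∞` is positive.  For `m = 1`, `g = 1` and `ρ = 1` the abelian variety is `E`. -/
def Value (W : WeierstrassCurve ℤ) {m g : ℕ} [NeZero m] (ρ : (ZMod m)ˣ →* GL (Fin g) ℤ) (r : ℚ) :
    Prop :=
  0 < Vinf ρ W ∧ ∃ L : ℂ → ℂ, Differentiable ℂ L ∧
    (∀ s : ℂ, 3 / 2 < s.re → HasProd (fun q : Nat.Primes =>
      (P ρ W q (((q : ℕ) : ℂ) ^ (-s)))⁻¹) (L s)) ∧
    L 1 = r * Vinf ρ W

/-- `r` is a unit at `p`. -/
def UnitAt (p : ℕ) (r : ℚ) : Prop := r ≠ 0 ∧ padicValRat p r = 0

/-- The conditions on `D`: squarefree, and 2, 5, 11 are inert in `ℚ(√-D)` and 3 does not split. -/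
structure Disc (D : ℕ) : Prop where
  squarefree : Squarefree D
  two : D % 8 = 3
  three : D % 3 ≠ 2
  five : D % 5 = 2 ∨ D % 5 = 3
  eleven : D % 11 = 1 ∨ D % 11 = 3 ∨ D % 11 = 4 ∨ D % 11 = 5 ∨ D % 11 = 9

/-- The minimal equation `y² + y = x³ + D x² - 10 D² x + (79 D³ - 1) / 4` of the twist of `X_0(11)` by
`-D` (for `D ≡ 3` modulo 4 the last coefficient is an integer). -/
def E (D : ℕ) : WeierstrassCurve ℤ := ⟨0, D, 1, -10 * (D : ℤ) ^ 2, (79 * (D : ℤ) ^ 3 - 1) / 4⟩

/-- The prime `l`, which does not divide `D`, splits in `ℚ(√-D)` (2 is inert). -/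
def Splits (D l : ℕ) : Prop := l ≠ 2 ∧ IsSquare ((-(D : ℤ) : ℤ) : ZMod l)

/-- `M` is unramified at all the primes that split in `ℚ(√-D)`. -/
def UnramifiedAtSplit (D : ℕ) {m g : ℕ} (ρ : (ZMod m)ˣ →* GL (Fin g) ℤ) : Prop :=
  ∀ l : ℕ, l.Prime → l ∣ m → Splits D l → Unramified ρ l

/-- The algebraic terms of the formula of Birch and Swinnerton-Dyer for `A` are trivial at 5: the order of
`A(ℚ)`, the 5-primary part of `Ш(A/ℚ)` and the Tamagawa numbers at all the primes. -/
def AllTrivial (W : WeierstrassCurve ℤ) {g : ℕ} (R : Gal ℚ →* GL (Fin g) ℤ) : Prop :=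
  Trivial 5 W R ∧ ∀ (q : ℕ) [Fact q.Prime], TamPrime W R 5 q

section bridge

open Pool.Agent.P8H11.PB (tA EQ EP rest rest_spec rest_unique)
open Pool.Agent.TH841.NF (aL aG Qb)

variable {g : ℕ} (W : WeierstrassCurve ℤ) (R : Gal ℚ →* GL (Fin g) ℤ)

theorem locCocycle_iff (K : Type) [Field K] [Algebra ℚ K]
    (ι : AlgebraicClosure ℚ →ₐ[ℚ] AlgebraicClosure K) (f : Gal K → PtA W g (AlgebraicClosure K)) :
    IsLocCocycle W R K ι f ↔ ∀ a b, f (a * b) = f a + tA (R.comp (rest ι)) (aL (EQ W) K) a (f b) := by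
  constructor
  · intro h a b
    exact h a b (rest ι a) fun x => (rest_spec ι a x).symm
  · intro h a b σ hσ
    have h1 := rest_unique ι a σ hσ
    subst h1
    exact h a b

theorem locCoboundary_iff (K : Type) [Field K] [Algebra ℚ K]
    (ι : AlgebraicClosure ℚ →ₐ[ℚ] AlgebraicClosure K) (f : Gal K → PtA W g (AlgebraicClosure K)) :
    IsLocCoboundary W R K ι f ↔ ∃ P : Fin g → EP W (AlgebraicClosure K), ∀ a,
      f a = tA (R.comp (rest ι)) (aL (EQ W) K) a P - P := by
  constructor
  · rintro ⟨P, h⟩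
    exact ⟨P, fun a => h a (rest ι a) fun x => (rest_spec ι a x).symm⟩
  · rintro ⟨P, h⟩
    refine ⟨P, fun a σ hσ => ?_⟩
    have h1 := rest_unique ι a σ hσ
    subst h1
    exact h a

theorem tam_iff (p q : ℕ) [Fact q.Prime] : TamPrime W R p q ↔ Pool.Agent.P8H11.AL.TamU p W R q := by
  constructor
  · intro h ι f hf hk hP
    exact (locCoboundary_iff W R ℚ_[q] ι f).1 (h ι f ((locCocycle_iff W R ℚ_[q] ι f).2 hf) hk
      ((locCoboundary_iff W R ℚ_[q] ι _).2 hP))
  · intro h ι f hf hk hP
    exact (locCoboundary_iff W R ℚ_[q] ι f).2 (h ι f ((locCocycle_iff W R ℚ_[q] ι f).1 hf) hk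
      ((locCoboundary_iff W R ℚ_[q] ι _).1 hP))

theorem trivial_iff (p : ℕ) : Trivial p W R ↔ Pool.Agent.P8H11.PB.TrivA W R p :=
  ⟨fun h => ⟨h.points.1, h.points.2, h.sha⟩, fun h => ⟨⟨h.1, h.2.1⟩, h.2.2⟩⟩

end bridge

/-- The action `ρ` of `(ℤ/m)ˣ` on `ℤ^g` is admissible for `D`: `m` is prime to `11 D`, and the image of `ρ`
is a group of exponent a power of 5. -/
structure Admissible (D : ℕ) {m g : ℕ} (ρ : (ZMod m)ˣ →* GL (Fin g) ℤ) : Prop where
  coprime : m.Coprime (11 * D)
  order : ∃ n : ℕ, ∀ u, ρ u ^ (5 ^ n) = 1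

/-- the value -/
theorem val (D : ℕ) (hD : Disc D) {m : ℕ} [NeZero m] {g : ℕ} (hg : 0 < g)
    (ρ : (ZMod m)ˣ →* GL (Fin g) ℤ) (hρ : Admissible D ρ) :
    ∃ a : ℚ, Value (E D) ρ a ∧ 0 ≤ padicValRat 5 a ∧
      (UnitAt 5 a ↔ ¬ (5 : ℤ) ∣ Pool.Agent.P8H11.FH.B1 D ∧ UnramifiedAtSplit D ρ) := by
  have hDD : Pool.Agent.P8H11.FH.Disc D := ⟨hD.squarefree, hD.two, hD.three, hD.five, hD.eleven⟩
  obtain ⟨n, hn⟩ := hρ.order
  obtain ⟨Λ, h4, h6, h⟩ := Pool.Agent.P8H11.AL.an_final hDD
  obtain ⟨L, h1, h2, r, h3, h5, h7⟩ := h m hρ.coprime g n hg ρ hn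
  have hpos : 0 < √(cond ρ : ℝ) := by
    apply Real.sqrt_pos.2
    have h1 : 0 < cond ρ := Finset.prod_pos fun l hl => Finset.prod_pos fun k _ =>
      Nat.pow_pos (Nat.prime_of_mem_primeFactors hl).pos
    exact_mod_cast h1
  have hper : 0 < realPeriod (E D) :=
    Pool.Agent.P8H11.PB.Vol.real_pos (Pool.Agent.P8H11.FH.disc_ne hDD) Λ h4 h6
  refine ⟨r, ⟨?_, L, h1, h2, ?_⟩, h5, h7⟩
  · unfold Vinf
    positivity
  · have hc : ((√(cond ρ : ℝ) : ℝ) : ℂ) ≠ 0 := by exact_mod_cast hpos.ne'
    have e1 : L 1 * ((√(cond ρ : ℝ) : ℝ) : ℂ) = r * ((realPeriod (E D) ^ g : ℝ) : ℂ) := h3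
    have e2 : ((Vinf ρ (E D) : ℝ) : ℂ) =
        ((realPeriod (E D) ^ g : ℝ) : ℂ) / ((√(cond ρ : ℝ) : ℝ) : ℂ) := by
      unfold Vinf
      rw [Complex.ofReal_div]
    rw [e2, ← mul_div_assoc, ← e1, mul_div_cancel_right₀ _ hc]

/-- **Main theorem.** Let `D` be a squarefree positive integer such that 2, 5, 11 are inert in
`K = ℚ(√-D)` and 3 does not split in `K`.  (1) For every `m` prime to `11 D` and every lattice `M = ℤ^g`,
`g ≥ 1`, with an action `ρ` of `(ℤ/m)ˣ` of exponent a power of 5, and `A = E_D ⊗ M` (where `κ` is the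
cyclotomic character modulo `m` of the absolute Galois group of `ℚ`): there are no rational points of
order 5 on `A`; if `M` is unramified at the primes that split in `K` then all the Tamagawa numbers of `A` are
prime to 5; and `L(A, 1) = a V_∞`, where the rational number `a` is integral at 5, and the following are
equivalent: `a` is a unit at 5; 5 does not divide the class number of `K` and `M` is unramified at the primes
that split in `K`; the algebraic terms of the formula of Birch and Swinnerton-Dyer for `A` are trivial at 5;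
the same for the dual of `A`.  (2) For every `m` prime to `11 D` all of whose prime divisors are `≡ 1` modulo 5
or 5 (if `25 ∣ m`), there is an admissible action of `(ℤ/m)ˣ` on `ℤ^4` such that no vector is fixed by the
inertia group of a prime divisor of `m`. -/
theorem result (D : ℕ) (hD : Disc D) (K : Type) [Field K] [NumberField K]
    (hK : Module.finrank ℚ K = 2) (hα : ∃ α : K, α ^ 2 = -(D : K)) :
    (∀ (m : ℕ) [NeZero m] (g : ℕ), 0 < g → ∀ ρ : (ZMod m)ˣ →* GL (Fin g) ℤ, Admissible D ρ →
      ∀ κ : Gal ℚ →* (ZMod m)ˣ, (∀ (σ : Gal ℚ) (ζ : AlgebraicClosure ℚ), ζ ^ m = 1 →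
        σ ζ = ζ ^ ((κ σ : ZMod m)).val) →
      (∀ P ∈ ptsA (E D) (ρ.comp κ), 5 • P = 0 → P = 0) ∧
      (UnramifiedAtSplit D ρ → ∀ (q : ℕ) [Fact q.Prime], TamPrime (E D) (ρ.comp κ) 5 q) ∧
      ∃ a : ℚ, Value (E D) ρ a ∧ 0 ≤ padicValRat 5 a ∧
        (UnitAt 5 a ↔ ¬ 5 ∣ classNumber K ∧ UnramifiedAtSplit D ρ) ∧
        (UnitAt 5 a ↔ AllTrivial (E D) (ρ.comp κ)) ∧
        (UnitAt 5 a ↔ AllTrivial (E D) (((contra g).comp ρ).comp κ))) ∧
    ∀ (m : ℕ) [NeZero m], m.Coprime (11 * D) →
      (∀ l : ℕ, l.Prime → l ∣ m → l % 5 = 1 ∨ (l = 5 ∧ 25 ∣ m)) →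
      ∃ ρ : (ZMod m)ˣ →* GL (Fin 4) ℤ, Admissible D ρ ∧
        ∀ l : ℕ, l.Prime → l ∣ m → fixed ρ (inertia m l) = ⊥ := by
  have hDD : Pool.Agent.P8H11.FH.Disc D := ⟨hD.squarefree, hD.two, hD.three, hD.five, hD.eleven⟩
  have hcl : Pool.Agent.P8H11.FH.Cl5 D ↔ ¬ 5 ∣ classNumber K :=
    Pool.Agent.P8H11.FH.cl5_iff hDD K hK hα
  refine ⟨?_, ?_⟩
  · intro m _ g hg ρ hρ κ hκ
    obtain ⟨n, hn⟩ := hρ.order
    have hdual : ∀ u, ((contra g).comp ρ) u ^ (5 ^ n) = 1 := by
      intro u
      rw [MonoidHom.comp_apply, ← map_pow, hn, map_one]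
    have hinj : Function.Injective (contra g) := by
      intro A B h
      have h1 : ((A⁻¹ : GL (Fin g) ℤ) : Matrix (Fin g) (Fin g) ℤ).transpose =
          ((B⁻¹ : GL (Fin g) ℤ) : Matrix (Fin g) (Fin g) ℤ).transpose :=
        congrArg (fun z : GL (Fin g) ℤ => (z : Matrix (Fin g) (Fin g) ℤ)) h
      exact inv_injective (Units.ext (Matrix.transpose_injective h1))
    have hfin : ∀ ρ' : (ZMod m)ˣ →* GL (Fin g) ℤ, (∀ u, ρ' u ^ (5 ^ n) = 1) →
        (AllTrivial (E D) (ρ'.comp κ) ↔ ¬ 5 ∣ classNumber K ∧ UnramifiedAtSplit D ρ') := by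
      intro ρ' hρ'
      rw [← hcl]
      refine Iff.trans ?_ (Pool.Agent.P8H11.AL.alg_final hκ ρ' hρ' hDD hρ.coprime hg)
      exact and_congr (trivial_iff _ _ 5) (forall_congr' fun q => forall_congr' fun _ => tam_iff _ _ 5 q)
    have hud : UnramifiedAtSplit D ((contra g).comp ρ) ↔ UnramifiedAtSplit D ρ :=
      forall_congr' fun l => forall_congr' fun _ => forall_congr' fun _ => forall_congr' fun _ =>
        Pool.Agent.P8H11.AL.unr_hom ρ (contra g) hinj l
    refine ⟨fun P hP h5 => ?_, fun hs q _ => ?_, ?_⟩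
    · exact Pool.Agent.P8H11.AL.tors_A ρ hn hDD P h5 fun σ => hP σ
    · exact (tam_iff _ _ 5 q).2 (Pool.Agent.P8H11.AL.tam_final hκ ρ hn hDD hρ.coprime hs q)
    · obtain ⟨a, h1, h2, h3⟩ := val D hD hg ρ hρ
      have h4 : UnitAt 5 a ↔ ¬ 5 ∣ classNumber K ∧ UnramifiedAtSplit D ρ := by
        rw [h3, Pool.Agent.P8H11.FH.t_cls D hDD K hK hα]
      refine ⟨a, h1, h2, h4, ?_, ?_⟩
      · rw [h4, hfin ρ hn]
      · rw [h4, hfin _ hdual, hud]
  · intro m _ hco hm
    obtain ⟨ρ, h1, h2⟩ := Pool.Agent.P8H11.AL.exists_rho4 m hm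
    refine ⟨ρ, ⟨hco, ⟨1, fun u => ?_⟩⟩, fun l hl hlm => ?_⟩
    · rw [pow_one]
      exact h1 u
    · obtain ⟨u, hu, hv⟩ := h2 l hl hlm
      rw [eq_bot_iff]
      intro v hvf
      rw [fixed, Submodule.mem_iInf] at hvf
      have h3 := hvf ⟨u, hu⟩
      rw [LinearMap.mem_ker, Matrix.toLin'_apply, Matrix.sub_mulVec, Matrix.one_mulVec,
        sub_eq_zero] at h3
      exact hv v h3

end Pool.Agent.Results.MP_dfae13_nt.FivePartAllLattices
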