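import Pool.Agent.P8H11.UT.Alg3
import Pool.Agent.P8H11.PB.An.Sym
import Pool.Agent.P8H11.PB.Vol

/-!
# The `p`-part of the Birch and Swinnerton-Dyer conjecture for `E ⊗ M` and for `E`, `p` odd

`E` is an elliptic curve over `ℚ` with an equation `W`, `p` an odd prime, and `M = ℤ^g` a lattice with
an action `ρ` of `Gal(ℚ(ζ_m)/ℚ) = (ℤ/m)ˣ` through a `p`-group; `m` is squarefree and prime to `6 p Δ`,
and `E(𝔽_l)` has no point of order `p` for all primes `l` that divide `m`.  At every prime `q` that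
divides `Δ` the Tamagawa number of `E` is prime to `p`, or `q` splits completely in the field that is cut
out by `M`; there is no condition of splitting at the other primes, in particular none at `2`, `3`, `p`.
The abelian variety `A = E ⊗ M` over `ℚ` has dimension `g` (every abelian variety over `ℚ` that becomes
isomorphic to `E^g` over a subfield of `ℚ(ζ_m)` of degree a power of `p` is of this form if `E` has no
complex multiplication); its dual is `A' = E ⊗ M^∨`.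

We compare all the terms of the formula for `A` and for `E` at `p`:

* `A(ℚ)` is finite of order prime to `p` and `Ш(A/ℚ)[p^∞] = 0` if and only if this holds for `E`, and
  likewise for `A'`;
* the Tamagawa number of `A` at `q ∣ Δ` is prime to `p` if this holds for `E`;
* the `L`-function of `A` is entire, `L(A, 1)` is the product of the volumes `V_∞` and `V_bad` and of a
  rational number that is integral at `p`, and this number is a unit at `p` if and only if this holds for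
  `E`; the volumes are positive, so that `L(A, 1) ≠ 0` in this case.

So, if the Tamagawa numbers of `E` are prime to `p`, the `p`-part of the conjecture holds for `A` with
all the terms units at `p` if and only if it holds for `E` in this form, for all the lattices `M`.

The volumes.  As `m` is squarefree, `A` has at the primes `l ∣ m` good reduction over a tamely ramified
extension; the Néron differential of `A` is, up to a unit at `l`, `l^(-(g - rank M^(I_l)) / 2)` times the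
differential given by a basis of `M` and the Néron differential of `E`, and `∫_{A(ℚ_l)} |ω|_l` is, up to
a power of `l` accounted for in this way, a unit at `p`, as `E` has no point of order `p` modulo `l` and
a `p`-group acts on `M`; so these factors do not appear, and the power of `l` gives the factor `√cond`.
As `p` is odd the complex conjugation acts trivially on `M`, so that the volume of `A(ℝ)` for this
differential is `realPeriod^g`.  At the primes `q ∣ Δ` the volume is the Tamagawa number times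
`#𝒜⁰(𝔽_q) / q^g = det (1 - a_q / q ρ(q))`.

The proof of the algebraic part uses at the primes `q` not dividing `m` that `H¹(F/ℚ_q, E(F) ⊗ M)` is
zero for unramified extensions `F` of `p`-power degree if the Tamagawa number of `E` is prime to `p` (the
theorem of Lang and the formal group; by helper17, 24, 29, 54, 55, 57, 72, 76, 80, 89 and 92).
-/

set_option autoImplicit false

open NumberField WeierstrassCurve MeasureTheory
open UpperHalfPlane MatrixGroups CongruenceSubgroup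

namespace Pool.Agent.Results.MP_dfae13_nt.TensorOddPartTam

open scoped Classical

open Pool.Agent.TH841.SH.D (Pt act Gal)

/-- The curve given by the equation of `W` over the ring `R`. -/
abbrev base (W : WeierstrassCurve ℤ) (R : Type) [CommRing R] : WeierstrassCurve R :=
  W.map (Int.castRingHom R)

/-- The number of the affine points `(x, y)` over the ring `R`. -/
noncomputable def pts (W : WeierstrassCurve ℤ) (R : Type) [CommRing R] : ℕ :=
  Nat.card {P : R × R // (base W R).toAffine.Equation P.1 P.2}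

/-- `4 x³ + b₂ x² + 2 b₄ x + b₆ = (2 y + a₁ x + a₃)²`, where `b₂ = a₁² + 4 a₂`,
`b₄ = 2 a₄ + a₁ a₃`, `b₆ = a₃² + 4 a₆`. -/
def cubic (W : WeierstrassCurve ℤ) {R : Type} [CommRing R] (x : R) : R :=
  4 * x ^ 3 + W.b₂ * x ^ 2 + 2 * W.b₄ * x + W.b₆

/-- `∫_{W(ℝ)} |ω|` with `ω = dx / (2 y + a₁ x + a₃)`, as an integral over `x`: two real points lie
over each `x` with `cubic x > 0`. -/
noncomputable def realPeriod (W : WeierstrassCurve ℤ) : ℝ :=
  2 * ∫ x in {x : ℝ | 0 < cubic W x}, 1 / √(cubic W x)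

section modular

variable {N : ℕ}

/-- The `n`-th coefficient of the cusp form `f = ∑ a_n q^n`. -/
noncomputable def co (f : CuspForm (Gamma0 N : Subgroup (GL (Fin 2) ℝ)) 2) (n : ℕ) : ℂ :=
  (qExpansion 1 f).coeff n

/-- `2 π i ∫_(i∞)^z f(w) dw = ∑ a_n / n e^(2 π i n z)`. -/
noncomputable def prim (f : CuspForm (Gamma0 N : Subgroup (GL (Fin 2) ℝ)) 2) (z : ℂ) : ℂ :=
  ∑' n : ℕ, co f n / n * Complex.exp (2 * Real.pi * Complex.I * n * z)

/-- The cusp form `f` of weight two for `Γ₀(N)` is the newform of `W`: it is a normalised eigenform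
of the Hecke operators and of the Fricke involution, with real coefficients that satisfy the bounds
of Hasse, `N` has the same prime divisors as the discriminant, and `a_p = p + 1 - #W(𝔽_p)`. -/
structure IsNewform (W : WeierstrassCurve ℤ) (N : ℕ)
    (f : CuspForm (Gamma0 N : Subgroup (GL (Fin 2) ℝ)) 2) : Prop where
  one : co f 1 = 1
  real : ∀ n, (co f n).im = 0
  mul : ∀ m n : ℕ, Nat.Coprime m n → co f (m * n) = co f m * co f n
  pow : ∀ p j : ℕ, p.Prime → co f (p ^ (j + 2)) = co f p * co f (p ^ (j + 1)) -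
      (if p ∣ N then 0 else (p : ℂ) * co f (p ^ j))
  good : ∀ p : ℕ, p.Prime → ¬ p ∣ N → ‖co f p‖ ≤ 2 * Real.sqrt p
  bad : ∀ p : ℕ, p.Prime → p ∣ N → ‖co f p‖ ≤ 1
  fricke : ∃ w : ℝ, (w = 1 ∨ w = -1) ∧ ∀ τ τ' : ℍ, (τ' : ℂ) * ((N : ℂ) * (τ : ℂ)) = -1 →
    f τ' = -(w : ℂ) * (N : ℂ) * (τ : ℂ) ^ 2 * f τ
  level : ∀ p : ℕ, p.Prime → (p ∣ N ↔ (p : ℤ) ∣ W.Δ)
  coef : ∀ p : ℕ, p.Prime → co f p = (p : ℂ) - (pts W (ZMod p) : ℂ)

end modular

section tensor

/-! ### The abelian variety `A = E ⊗ M`, `M = ℤ^g`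

Its points over an algebraic closure of `ℚ` are the `g`-tuples of points of `E`; the Galois group of `ℚ`
acts on them by its action on `E` and the matrices `R(σ)`. -/

/-- The action of an integral matrix on `ℤ^g ⊗ G = G^g`. -/
def mat {G : Type} [AddCommGroup G] {g : ℕ} (A : Matrix (Fin g) (Fin g) ℤ) (P : Fin g → G) :
    Fin g → G := fun i => ∑ j, A i j • P j

variable {g : ℕ} (W : WeierstrassCurve ℤ) (R : Gal ℚ →* GL (Fin g) ℤ)

/-- The points of `A` over an extension of `ℚ` over which the action on `M` is trivial. -/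
abbrev PtA (g : ℕ) (L : Type) [Field L] [Algebra ℚ L] : Type := Fin g → Pt (base W ℚ) L

/-- The action of the Galois group on the points of `A`: `σ` applied to the coordinates, and then the
matrix `R(σ)`. -/
noncomputable def actA (σ : Gal ℚ) (P : PtA W g (AlgebraicClosure ℚ)) :
    PtA W g (AlgebraicClosure ℚ) :=
  mat (R σ : Matrix (Fin g) (Fin g) ℤ) (fun i => act (base W ℚ) σ.toAlgHom (P i))

/-- `A(ℚ)`. -/
def ptsA : Set (PtA W g (AlgebraicClosure ℚ)) := {P | ∀ σ : Gal ℚ, actA W R σ P = P}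

/-- `f` is a continuous cocycle with values in `A`: `f (σ τ) = f σ + σ (f τ)`. -/
def IsCocycle (f : Gal ℚ → PtA W g (AlgebraicClosure ℚ)) : Prop :=
  IsLocallyConstant f ∧ ∀ σ τ : Gal ℚ, f (σ * τ) = f σ + actA W R σ (f τ)

/-- `f` is a coboundary: `f σ = σ P - P`. -/
def IsCoboundary (f : Gal ℚ → PtA W g (AlgebraicClosure ℚ)) : Prop :=
  ∃ P : PtA W g (AlgebraicClosure ℚ), ∀ σ : Gal ℚ, f σ = actA W R σ P - P

/-- For every embedding of the algebraic closures the restriction of `f` to the absolute Galois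
group of `K` is a coboundary: `f σ = τ P - P` for `τ` in this group with restriction `σ`. -/
def LocTriv (K : Type) [Field K] [Algebra ℚ K] (f : Gal ℚ → PtA W g (AlgebraicClosure ℚ)) : Prop :=
  ∀ ι : AlgebraicClosure ℚ →ₐ[ℚ] AlgebraicClosure K, ∃ P : PtA W g (AlgebraicClosure K),
    ∀ (τ : Gal K) (σ : Gal ℚ), (∀ x, τ (ι x) = ι (σ x)) →
      (fun i => act (base W ℚ) ι (f σ i)) = mat (R σ : Matrix (Fin g) (Fin g) ℤ)
        (fun i => act (base W ℚ) (τ.toAlgHom.restrictScalars ℚ) (P i)) - P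

/-- `f` is a continuous cocycle that is locally trivial at all the places of `ℚ`; its class is an
element of `Ш(A/ℚ)`, and this is zero if and only if `f` is a coboundary. -/
def IsShaCocycle (f : Gal ℚ → PtA W g (AlgebraicClosure ℚ)) : Prop :=
  IsCocycle W R f ∧ (∀ (p : ℕ) [Fact p.Prime], LocTriv W R ℚ_[p] f) ∧ LocTriv W R ℝ f

/-- `P` is a point of `A` over the field `K`: it is fixed by the absolute Galois group of `K`, which acts
on the coordinates and, by restriction along `ι`, on `M`. -/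
def IsPoint (K : Type) [Field K] [Algebra ℚ K] (ι : AlgebraicClosure ℚ →ₐ[ℚ] AlgebraicClosure K)
    (P : PtA W g (AlgebraicClosure K)) : Prop :=
  ∀ (τ : Gal K) (σ : Gal ℚ), (∀ x, τ (ι x) = ι (σ x)) →
    mat (R σ : Matrix (Fin g) (Fin g) ℤ)
      (fun i => act (base W ℚ) (τ.toAlgHom.restrictScalars ℚ) (P i)) = P

end tensor

section lattice

variable {m g : ℕ} (ρ : (ZMod m)ˣ →* GL (Fin g) ℤ)

/-- The matrix `ρ(p)` of the Frobenius automorphism at a prime `p` that does not divide `m`. -/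
noncomputable def frob (p : ℕ) : Matrix (Fin g) (Fin g) ℤ :=
  if h : p.Coprime m then (ρ (ZMod.unitOfCoprime p h) : Matrix (Fin g) (Fin g) ℤ) else 0

/-- The Euler polynomial of `A = E ⊗ M` at a prime `p` of good reduction that does not divide `m`,
`det (1 - T Frob_p | H¹(A)) = det (1 - a_p T ρ(p) + p T² ρ(p)²)`, where `a_p = p - pts` as `pts` does not
count the point at infinity. -/
noncomputable def P (W : WeierstrassCurve ℤ) (p : ℕ) (T : ℂ) : ℂ :=
  (1 - ((((p : ℤ) - pts W (ZMod p) : ℤ) : ℂ) * T) • (frob ρ p).map (Int.cast : ℤ → ℂ) +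
    ((p : ℂ) * T ^ 2) • ((frob ρ p).map (Int.cast : ℤ → ℂ)) ^ 2).det

/-- `det (1 - a_p / p ρ(p)) = #𝒜⁰(𝔽_p) / p^g` at a prime `p` of bad reduction of `E` that does not
divide `m`. -/
noncomputable def bad (W : WeierstrassCurve ℤ) (p : ℕ) : ℝ :=
  (1 - ((((p : ℤ) - pts W (ZMod p) : ℤ) : ℝ) / p) • (frob ρ p).map (Int.cast : ℤ → ℝ)).det

/-- The vectors of `M` fixed by the subgroup `H`. -/
noncomputable def fixed (H : Subgroup (ZMod m)ˣ) : Submodule ℤ (Fin g → ℤ) :=
  ⨅ u : H, LinearMap.ker (Matrix.toLin' ((ρ (u : (ZMod m)ˣ) : Matrix (Fin g) (Fin g) ℤ) - 1))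

/-- The inertia group at the prime `l ∣ m`, for `m` squarefree: the units congruent to `1` modulo
`m / l`. -/
def inertia (m l : ℕ) : Subgroup (ZMod m)ˣ where
  carrier := {u | ∃ k : ZMod m, (u : ZMod m) = 1 + k * ((m / l : ℕ) : ZMod m)}
  one_mem' := ⟨0, by simp⟩
  mul_mem' := by
    rintro u v ⟨k, hk⟩ ⟨j, hj⟩
    refine ⟨k + j + k * j * ((m / l : ℕ) : ZMod m), ?_⟩
    rw [Units.val_mul, hk, hj]
    ring
  inv_mem' := by
    rintro u ⟨k, hk⟩
    refine ⟨-k * ((u⁻¹ : (ZMod m)ˣ) : ZMod m), ?_⟩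
    have h1 : ((u⁻¹ : (ZMod m)ˣ) : ZMod m) * (u : ZMod m) = 1 := Units.inv_mul u
    have h2 : ((u⁻¹ : (ZMod m)ˣ) : ZMod m) * (1 + k * ((m / l : ℕ) : ZMod m)) = 1 := by
      rw [← hk]; exact h1
    linear_combination h2

/-- The Artin conductor of `M`, `∏_{l ∣ m} l^(g - rank M^(I_l))`, for `m` squarefree. -/
noncomputable def cond : ℕ :=
  ∏ l ∈ m.primeFactors, l ^ (g - Module.finrank ℤ (fixed ρ (inertia m l)))

/-- `V_∞`, the volume of `A(ℝ)` for the Néron differential of `A`, if the complex conjugation acts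
trivially on `M`. -/
noncomputable def Vinf (W : WeierstrassCurve ℤ) : ℝ := realPeriod W ^ g / √(cond ρ : ℝ)

end lattice

/-- The contragredient: `A ↦ (A⁻¹)ᵀ`.  It gives the action on the dual lattice `M^∨`. -/
noncomputable def contra (g : ℕ) : GL (Fin g) ℤ →* GL (Fin g) ℤ where
  toFun A := ⟨((A⁻¹ : GL (Fin g) ℤ) : Matrix (Fin g) (Fin g) ℤ).transpose,
    ((A : GL (Fin g) ℤ) : Matrix (Fin g) (Fin g) ℤ).transpose, by
      rw [← Matrix.transpose_mul, ← Units.val_mul, mul_inv_cancel, Units.val_one,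
        Matrix.transpose_one], by
      rw [← Matrix.transpose_mul, ← Units.val_mul, inv_mul_cancel, Units.val_one,
        Matrix.transpose_one]⟩
  map_one' := by
    apply Units.ext
    show ((1⁻¹ : GL (Fin g) ℤ) : Matrix (Fin g) (Fin g) ℤ).transpose = 1
    rw [inv_one, Units.val_one, Matrix.transpose_one]
  map_mul' A B := by
    apply Units.ext
    show (((A * B)⁻¹ : GL (Fin g) ℤ) : Matrix (Fin g) (Fin g) ℤ).transpose =
      ((A⁻¹ : GL (Fin g) ℤ) : Matrix (Fin g) (Fin g) ℤ).transpose *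
        ((B⁻¹ : GL (Fin g) ℤ) : Matrix (Fin g) (Fin g) ℤ).transpose
    rw [mul_inv_rev, Units.val_mul, Matrix.transpose_mul]

/-- `W` is modular, with Manin constant prime to `p`: it has a newform, and a multiple by an integer
prime to `p` of the periods of this newform is in the period lattice of the equation. -/
structure Modular (p : ℕ) (W : WeierstrassCurve ℤ) : Prop where
  newform : ∃ (N : ℕ) (_ : NeZero N) (f : CuspForm (Gamma0 N : Subgroup (GL (Fin 2) ℝ)) 2)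
    (Λ : PeriodPair) (c : ℤ), IsNewform W N f ∧ Λ.g₂ = (W.c₄ : ℂ) / 12 ∧ Λ.g₃ = (W.c₆ : ℂ) / 216 ∧
    ¬ (p : ℤ) ∣ c ∧ ∀ γ ∈ Gamma0 N, ∀ z : ℍ,
      (c : ℂ) * (prim f ((γ • z : ℍ) : ℂ) - prim f (z : ℂ)) ∈ Λ.lattice

/-- The algebraic terms of the formula for `A = E ⊗ M` are trivial at `p`: the group `A(ℚ)` is finite of
order prime to `p`, and the `p`-primary part of `Ш(A/ℚ)` is zero.  Here `R` is the action of the Galois
group of `ℚ` on `M = ℤ^g`; for `g = 1` and `R = 1` the abelian variety is `E`. -/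
structure Trivial (p : ℕ) (W : WeierstrassCurve ℤ) {g : ℕ} (R : Gal ℚ →* GL (Fin g) ℤ) : Prop where
  points : Finite (ptsA W R) ∧ ¬ p ∣ Nat.card (ptsA W R)
  sha : ∀ f, IsShaCocycle W R f → ∀ k : ℕ, IsCoboundary W R (p ^ k • f) → IsCoboundary W R f

/-- The `L`-function of `A = E ⊗ M` (the Euler product over the primes that do not divide `m Δ`) is
entire, and `L(A, 1) = r V_∞ ∏_{q ∣ Δ} #𝒜⁰(𝔽_q) / q^g` with the rational number `r`, where `V_∞` and the
product are positive (so `L(A, 1) ≠ 0` if `r ≠ 0`).  For `m = 1`, `g = 1` and `ρ = 1` the abelian variety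
is `E`. -/
def Value (W : WeierstrassCurve ℤ) {m g : ℕ} (ρ : (ZMod m)ˣ →* GL (Fin g) ℤ) (r : ℚ) : Prop :=
  0 < Vinf ρ W ∧ 0 < ∏ q ∈ W.Δ.natAbs.primeFactors, bad ρ W q ∧
  ∃ L : ℂ → ℂ, Differentiable ℂ L ∧
    (∀ s : ℂ, 3 / 2 < s.re → HasProd (fun q : Nat.Primes =>
      if ((q : ℕ) : ℤ) ∣ m * W.Δ then 1 else (P ρ W q (((q : ℕ) : ℂ) ^ (-s)))⁻¹) (L s)) ∧
    L 1 = r * (Vinf ρ W * ∏ q ∈ W.Δ.natAbs.primeFactors, bad ρ W q)

/-- `r` is a unit at `p`. -/
def UnitAt (p : ℕ) (r : ℚ) : Prop := r ≠ 0 ∧ padicValRat p r = 0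

/-- the coefficient at a bad prime is `0`, `1` or `-1` -/
theorem abs_le {W : WeierstrassCurve ℤ} {N : ℕ}
    {f : CuspForm (Gamma0 N : Subgroup (GL (Fin 2) ℝ)) 2}
    (hf : Pool.Agent.Y702.G.BSD.IsNewform W N f) (q : ℕ) (hq : q.Prime) (hqd : (q : ℤ) ∣ W.Δ) :
    |(((q : ℤ) - pts W (ZMod q) : ℤ) : ℝ)| ≤ 1 := by
  have h1 := hf.bad q hq ((hf.level q hq).2 hqd)
  rw [hf.coef q hq] at h1
  have h2 : ((q : ℂ) - (pts W (ZMod q) : ℂ)) = (((((q : ℤ) - pts W (ZMod q) : ℤ)) : ℝ) : ℂ) := by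
    push_cast
    rfl
  rw [show Pool.Agent.Y702.G.BSD.pts W (ZMod q) = pts W (ZMod q) from rfl, h2,
    Complex.norm_real, Real.norm_eq_abs] at h1
  exact h1

/-- the volumes are positive -/
theorem vol_pos {W : WeierstrassCurve ℤ} (hΔ : W.Δ ≠ 0) {m g : ℕ} (ρ : (ZMod m)ˣ →* GL (Fin g) ℤ)
    {M : ℕ} (hM : 0 < M) (hρ : ∀ u, ρ u ^ M = 1) (Λ : PeriodPair)
    (hg₂ : Λ.g₂ = (W.c₄ : ℂ) / 12) (hg₃ : Λ.g₃ = (W.c₆ : ℂ) / 216)
    (hbad : ∀ q : ℕ, q.Prime → (q : ℤ) ∣ W.Δ → |(((q : ℤ) - pts W (ZMod q) : ℤ) : ℝ)| ≤ 1) :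
    0 < Vinf ρ W ∧ 0 < ∏ q ∈ W.Δ.natAbs.primeFactors, bad ρ W q := by
  constructor
  · have h1 : 0 < cond ρ := Finset.prod_pos fun l hl =>
      Nat.pow_pos (Nat.prime_of_mem_primeFactors hl).pos
    have h2 : (0 : ℝ) < cond ρ := by exact_mod_cast h1
    have h3 : 0 < realPeriod W := Pool.Agent.P8H11.PB.Vol.real_pos hΔ Λ hg₂ hg₃
    unfold Vinf
    positivity
  · refine Finset.prod_pos fun q hq => ?_
    have hqp := Nat.prime_of_mem_primeFactors hq
    have hqd : (q : ℤ) ∣ W.Δ := Int.natCast_dvd.2 (Nat.dvd_of_mem_primeFactors hq)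
    unfold bad
    refine Pool.Agent.P8H11.PB.Vol.bad_pos ρ hM hρ q hqp _ (hbad q hqp hqd) (frob ρ q) ?_
    unfold frob
    split_ifs with h
    · exact Or.inr ⟨_, rfl⟩
    · exact Or.inl rfl

theorem value_of {W : WeierstrassCurve ℤ} {m g : ℕ} {ρ : (ZMod m)ˣ →* GL (Fin g) ℤ} {p : ℕ} {u : Prop}
    (hvol : 0 < Vinf ρ W ∧ 0 < ∏ q ∈ W.Δ.natAbs.primeFactors, bad ρ W q)
    (h : Pool.Agent.P8H11.PB.An.AnA W ρ p u) :
    ∃ r : ℚ, Value W ρ r ∧ 0 ≤ padicValRat p r ∧ (UnitAt p r ↔ u) := by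
  obtain ⟨L, h1, h2, r, h3, h4, h5⟩ := h
  refine ⟨r, ⟨hvol.1, hvol.2, L, h1, h2, ?_⟩, h4, h5⟩
  have hpos : 0 < √(cond ρ : ℝ) := by
    apply Real.sqrt_pos.2
    have h1 : 0 < cond ρ := Finset.prod_pos fun l hl =>
      Nat.pow_pos (Nat.prime_of_mem_primeFactors hl).pos
    exact_mod_cast h1
  have hV : Vinf ρ W * ∏ p ∈ W.Δ.natAbs.primeFactors, bad ρ W p =
      (realPeriod W ^ g * ∏ p ∈ W.Δ.natAbs.primeFactors, bad ρ W p) / √(cond ρ : ℝ) := by
    unfold Vinf
    ring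
  have hc : ((√(cond ρ : ℝ) : ℝ) : ℂ) ≠ 0 := by exact_mod_cast hpos.ne'
  have h2 : L 1 * ((√(cond ρ : ℝ) : ℝ) : ℂ) =
      r * ((realPeriod W ^ g * ∏ p ∈ W.Δ.natAbs.primeFactors, bad ρ W p : ℝ) : ℂ) := h3
  have h3 : ((Vinf ρ W * ∏ p ∈ W.Δ.natAbs.primeFactors, bad ρ W p : ℝ) : ℂ) =
      ((realPeriod W ^ g * ∏ p ∈ W.Δ.natAbs.primeFactors, bad ρ W p : ℝ) : ℂ) /
        ((√(cond ρ : ℝ) : ℝ) : ℂ) := by
    rw [hV, Complex.ofReal_div]
  rw [Complex.ofReal_mul] at h3
  rw [h3]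
  field_simp
  exact h2

/-- The index in `E(ℚ_q)` of the subgroup generated by the points with nonsingular reduction (which are
the point at infinity, and the points with `x` not integral or with one of the partial derivatives of the
equation a unit); it is the Tamagawa number of `E` at `q` if `W` is minimal at `q`. -/
noncomputable def tam (W : WeierstrassCurve ℤ) (q : ℕ) [Fact q.Prime] : ℕ :=
  (AddSubgroup.closure {P : (base W ℚ_[q]).toAffine.Point | ∀ x y h, P = Affine.Point.some x y h →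
    1 < ‖x‖ ∨
    ‖(W.a₁ : ℚ_[q]) * y - (3 * x ^ 2 + 2 * (W.a₂ : ℚ_[q]) * x + (W.a₄ : ℚ_[q]))‖ = 1 ∨
    ‖2 * y + (W.a₁ : ℚ_[q]) * x + (W.a₃ : ℚ_[q])‖ = 1}).index

/-- The point `P` over the algebraic closure of `ℚ_q` has nonsingular reduction: it is the point at
infinity, or `x` is not integral, or one of the partial derivatives of the equation is a unit. -/
def Nonsing (W : WeierstrassCurve ℤ) (q : ℕ) [Fact q.Prime]
    (P : Pt (base W ℚ) (AlgebraicClosure ℚ_[q])) : Prop :=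
  ∀ x y h, P = Affine.Point.some x y h →
    1 < spectralNorm ℚ_[q] (AlgebraicClosure ℚ_[q]) x ∨
    spectralNorm ℚ_[q] (AlgebraicClosure ℚ_[q]) ((W.a₁ : AlgebraicClosure ℚ_[q]) * y -
      (3 * x ^ 2 + 2 * (W.a₂ : AlgebraicClosure ℚ_[q]) * x + (W.a₄ : AlgebraicClosure ℚ_[q]))) = 1 ∨
    spectralNorm ℚ_[q] (AlgebraicClosure ℚ_[q]) (2 * y + (W.a₁ : AlgebraicClosure ℚ_[q]) * x +
      (W.a₃ : AlgebraicClosure ℚ_[q])) = 1

/-- The Tamagawa number of `A` at `q`, the index of the subgroup `A⁰(ℚ_q)` of the points whose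
coordinates have nonsingular reduction in `A(ℚ_q)`, is prime to `p`: a multiple `k P` of every point `P`
is in `A⁰(ℚ_q)`, where `k` is prime to `p`.  (`M` is unramified at `q`.) -/
def TamPrime (p : ℕ) (W : WeierstrassCurve ℤ) {g : ℕ} (R : Gal ℚ →* GL (Fin g) ℤ) (q : ℕ)
    [Fact q.Prime] : Prop :=
  ∀ ι, ∃ k : ℕ, ¬ p ∣ k ∧ ∀ P, IsPoint W R ℚ_[q] ι P → ∀ i, Nonsing W q (k • P i)

/-- **Main theorem.** Let `p` be an odd prime, `W` modular with Manin constant prime to `p`, `m ≠ 1`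
squarefree, with `l ∤ 6 p Δ` and `p ∤ #E(𝔽_l)` for all primes `l` that divide `m`, and let `ρ` be an
action of `(ℤ/m)ˣ` on `M = ℤ^g`, `g ≥ 1`, through a `p`-group, such that for all primes `q` that divide
`Δ` the Tamagawa number of `E` at `q` is prime to `p` or `q` acts trivially.  Then the algebraic terms of
the formula of Birch and Swinnerton-Dyer are trivial at `p` for `A = E ⊗ M` if and only if they are
trivial at `p` for `E`, and likewise for the dual of `A`; the Tamagawa number of `A` at `q ∣ Δ` is prime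
to `p` if the one of `E` is; the values `L(A, 1)` and `L(E, 1)` are the volumes times rational numbers
`a` and `e`, both integral at `p`; and `a` is a unit at `p` if and only if `e` is. -/
theorem result (p : ℕ) (hp : p.Prime) (hp2 : p ≠ 2) (W : WeierstrassCurve ℤ) (hΔ : W.Δ ≠ 0)
    (hmod : Modular p W) (m : ℕ) [NeZero m] (hm1 : m ≠ 1) (hsq : Squarefree m)
    (hm : ∀ l : ℕ, l.Prime → l ∣ m → ¬ (l : ℤ) ∣ 6 * p * W.Δ ∧ ¬ p ∣ pts W (ZMod l) + 1)
    (g n : ℕ) (hg : 0 < g) (ρ : (ZMod m)ˣ →* GL (Fin g) ℤ) (hρ : ∀ u, ρ u ^ (p ^ n) = 1)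
    (hbad : ∀ (q : ℕ) [Fact q.Prime], (q : ℤ) ∣ W.Δ → ¬ p ∣ tam W q ∨
      ∀ u : (ZMod m)ˣ, (u : ZMod m) = q → ρ u = 1)
    (κ : Gal ℚ →* (ZMod m)ˣ)
    (hκ : ∀ (σ : Gal ℚ) (ζ : AlgebraicClosure ℚ), ζ ^ m = 1 → σ ζ = ζ ^ ((κ σ : ZMod m)).val) :
    (Trivial p W (ρ.comp κ) ↔ Trivial p W (1 : Gal ℚ →* GL (Fin 1) ℤ)) ∧
    (Trivial p W (((contra g).comp ρ).comp κ) ↔ Trivial p W (1 : Gal ℚ →* GL (Fin 1) ℤ)) ∧
    (∀ (q : ℕ) [Fact q.Prime], (q : ℤ) ∣ W.Δ → ¬ p ∣ tam W q → TamPrime p W (ρ.comp κ) q) ∧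
    ∃ a e : ℚ, Value W ρ a ∧ Value W (1 : (ZMod 1)ˣ →* GL (Fin 1) ℤ) e ∧
      0 ≤ padicValRat p a ∧ 0 ≤ padicValRat p e ∧ (UnitAt p a ↔ UnitAt p e) := by
  have hT : ∀ {g : ℕ} (R : Gal ℚ →* GL (Fin g) ℤ),
      Trivial p W R ↔ Pool.Agent.P8H11.PB.TrivA W R p := fun R =>
    ⟨fun h => ⟨h.points.1, h.points.2, h.sha⟩, fun h => ⟨⟨h.1, h.2.1⟩, h.2.2⟩⟩
  -- the curve itself
  have hE : Pool.Agent.P8H11.PB.TrivA W (1 : Gal ℚ →* GL (Fin 1) ℤ) p ↔
      Pool.Agent.P8H11.PB.SelZero (Pool.Agent.TH841.NF.aG (Pool.Agent.P8H11.PB.EQ W)) p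
        fun c => ∀ P ∈ Pool.Agent.P8H11.PB.Ps W, Pool.Agent.P8H11.PB.LTG P c := by
    have hone : ((1 : (ZMod 1)ˣ →* GL (Fin 1) ℤ).comp (1 : Gal ℚ →* (ZMod 1)ˣ)) = 1 := by
      ext σ
      rfl
    rw [← hone]
    refine Pool.Agent.P8H11.PB.alg_main (m := 1) (κ := 1) (n := 0) ?_ 1 (fun u => ?_) hΔ hp hp2
      ?_ ?_ Nat.one_pos
    · intro σ ζ hζ
      rw [pow_one] at hζ
      rw [hζ, map_one, one_pow]
    · rw [MonoidHom.one_apply, one_pow]
    · intro l hl hl1
      exact absurd (Nat.dvd_one.1 hl1) hl.one_lt.ne'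
    · intro q _ _ u _
      exact MonoidHom.one_apply u
  have hdual : ∀ u, ((contra g).comp ρ) u ^ (p ^ n) = 1 := by
    intro u
    rw [MonoidHom.comp_apply, ← map_pow, hρ, map_one]
  refine ⟨?_, ?_, ?_, ?_⟩
  · rw [hT, hT, hE]
    exact Pool.Agent.P8H11.UT.alg_ul hκ ρ hρ hΔ hp hp2 hm hbad hg
  · rw [hT, hT, hE]
    exact Pool.Agent.P8H11.UT.alg_ul hκ _ hdual hΔ hp hp2 hm (fun q _ hqd => (hbad q hqd).imp_right
      fun h u hu => by rw [MonoidHom.comp_apply, h u hu, map_one]) hg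
  · intro q hq hqd htam ι
    have hcop : m.Coprime q := by
      rw [Nat.coprime_comm, Nat.Prime.coprime_iff_not_dvd hq.1]
      exact fun hd => (hm q hq.1 hd).1 (hqd.mul_left _)
    obtain ⟨k, hk, h⟩ := Pool.Agent.P8H11.UT.tam_A hκ ρ hρ hΔ hp q hcop htam ι
    refine ⟨k, hk, fun P hP i x y hh hPi => ?_⟩
    have h1 := h P (fun τ => hP τ (Pool.Agent.P8H11.PB.rest ι τ)
      fun x => (Pool.Agent.P8H11.PB.rest_spec ι τ x).symm) i x y hh hPi
    rw [Pool.Agent.P8H11.UT.VV_int W q] at h1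
    exact h1
  -- the analytic side
  obtain ⟨l, hl, hlm⟩ := Nat.exists_prime_and_dvd hm1
  obtain ⟨N, hN, f, Λ, c, h2, h3, h4, h5, h6⟩ := hmod.newform
  have h2' : Pool.Agent.Y702.G.BSD.IsNewform W N f := ⟨h2.one, h2.real, h2.mul, h2.pow, h2.good,
    h2.bad, h2.fricke, h2.level, h2.coef⟩
  have hap : ∀ l : ℕ, l.Prime → l ∣ m → ¬ (p : ℤ) ∣ (pts W (ZMod l) : ℤ) + 1 := by
    intro l hl hlm h
    apply (hm l hl hlm).2
    exact_mod_cast h
  have hlN : ∀ l : ℕ, l.Prime → l ∣ m → ¬ l ∣ N := by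
    intro l hl hlm h
    exact (hm l hl hlm).1 (((h2.level l hl).1 h).mul_left _)
  have hco : Nat.Coprime m N := by
    rw [Nat.coprime_iff_gcd_eq_one]
    by_contra h
    obtain ⟨l, hl, hl2⟩ := Nat.exists_prime_and_dvd h
    exact hlN l hl (hl2.trans (Nat.gcd_dvd_left _ _)) (hl2.trans (Nat.gcd_dvd_right _ _))
  have hpm : ¬ p ∣ m := by
    intro h
    exact (hm p hp h).1 ((dvd_mul_left (p : ℤ) 6).mul_right _)
  obtain ⟨u, hu⟩ := Pool.Agent.P8H11.PB.An.an_main (Λ := Λ) (c := c) hΔ h2' h3 h4 hp hp2 h5 h6 hl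
    (hlN l hl hlm) (hap l hl hlm)
  obtain ⟨a, ha1, ha2, ha3⟩ := value_of (vol_pos hΔ ρ (Nat.pow_pos (n := n) hp.pos) hρ Λ h3 h4
    (fun q hq hqd => abs_le h2' q hq hqd)) (hu m hsq hpm hco hap g n hg ρ hρ)
  obtain ⟨e, he1, he2, he3⟩ := value_of (vol_pos hΔ (1 : (ZMod 1)ˣ →* GL (Fin 1) ℤ) one_pos
    (fun u => by rw [MonoidHom.one_apply, one_pow]) Λ h3 h4
    (fun q hq hqd => abs_le h2' q hq hqd)) (hu 1 squarefree_one (fun h => hp.one_lt.ne'
    (Nat.dvd_one.1 h)) (Nat.coprime_one_left N) (fun l hl h => absurd (Nat.dvd_one.1 h) hl.one_lt.ne')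
    1 0 Nat.one_pos 1 (fun u => by rw [MonoidHom.one_apply, one_pow]))
  exact ⟨a, e, ha1, he1, ha2, he2, ha3.trans he3.symm⟩

end Pool.Agent.Results.MP_dfae13_nt.TensorOddPartTam
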