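import Pool.Agent.Results.MP_92892c_nt.TwoPartFixedNumber

/-!
# The 2-part of the leading-term formula for the quadratic twists of products of twists of `X_0(49)`,
# in every dimension: the exact proportion in thin families

`E_N` is the quadratic twist by `N` of `X_0(49) : y² + x y = x³ - x² - 2 x - 1`, where `N ≥ 1` is
squarefree with all prime factors `≡ 1 mod 4`.  For `N = (N_1, …, N_g)` let `A_N = ∏ E_{N_i}`, an abelian
variety of dimension `g` over `ℚ` (equal to its dual); its quadratic twist by `D` is `∏ E_{N_i D}`, if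
`D` is prime to the `N_i`.  The terms of the formula for `A = A_N` are the products of those of the
`E_{N_i}`; let `z = L(A, 1) #A(ℚ)_tors² / (Ω ∏ c_p)`, which is zero or the order of `Ш(A/ℚ)` according to
the conjecture.

* Formula modulo two: for all `g` and `N` the function `L(A, s)` is entire, `z` is integral at the primes
  above two, and it is a unit at one of them if and only if `A(ℚ)` is finite and `Ш(A/ℚ)[2] = 0`.
* Let `A_N` be such that the 2-part of the formula holds with both sides units at two (for instance, let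
  all the prime factors of the `N_i` be inert in `ℚ(√-7)`).  Fix the numbers `k ≥ 0` and `m ≥ 1` of the
  prime factors of `D` which are split and inert in `ℚ(√-7)`, and an arbitrary set `S` of primes which
  contains the prime factors of `D`.  Suppose that the primes in `S` are squares modulo the prime factors
  of the `N_i`, and that at least a positive proportion of the primes up to `Y` are in `S`, `1` modulo
  `4` and inert, and (if `k > 0`) at least a positive proportion are in `S`, `1` modulo `4` and split.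
  Then the number of the `D ≤ X` has the order of magnitude `X (log log X)^(k+m-1) / log X`, and the
  proportion of those for which the 2-part of the formula holds for the quadratic twist by `D` of `A_N`,
  with both sides units at two, tends to `∏_{i < ⌈k/2⌉} (1 - 2^{-(2i+1)})`, for every dimension `g ≥ 1`.
* For given `N` this applies to the set `S` of the primes which are `1` modulo the prime factors of
  the `N_i`.
-/

set_option autoImplicit false

open NumberField IsDedekindDomain WeierstrassCurve Finset Filter Topology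

namespace Pool.Agent.Results.MP_dfae13_nt.TwistsOfProducts

open Pool.Agent.TH841.NF.D (Sha)
open Pool.Agent.Results.MP_4a9ea6_nt.TwoPartTwistsX49 (twist E MinimalAt Tam Omega torsOrder TwoPart)
open Pool.Agent.Results.MP_92892c_nt.TwoPartFixedNumber (InClass Splits Inert Family Rich count)

/-- `A_N(ℚ)`, the product of the groups `E_{N_i}(ℚ)` -/
abbrev Pts {g : ℕ} (N : Fin g → ℕ) : Type := (i : Fin g) → (E (N i)).toAffine.Point

/-- `Ш(A_N/ℚ)`, the product of the groups `Ш(E_{N_i}/ℚ)` -/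
abbrev ShaProd {g : ℕ} (N : Fin g → ℕ) : Type := (i : Fin g) → Sha (E (N i))

/-- `Λ` is the entire continuation of `L(A_N, s)`, the product of the `L(E_{N_i}, s)` -/
def IsL {g : ℕ} (N : Fin g → ℕ) (Λ : ℂ → ℂ) : Prop :=
  Differentiable ℂ Λ ∧ ∀ s : ℂ, 2 < s.re → Λ s = ∏ i, (E (N i)).LSeries s

/-- The order of `Ш(A_N/ℚ)` predicted by the formula, for the value `l` of the L-function at `s = 1`:
`#A_N(ℚ)_tors² l / (Ω ∏ c_p)`, with the products of the periods, of the Tamagawa numbers and of the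
orders of the torsion subgroups of the `E_{N_i}`. -/
noncomputable def anOrder {g : ℕ} (N : Fin g → ℕ) (l : ℂ) : ℂ :=
  l * (∏ i, (torsOrder (E (N i)) : ℂ) ^ 2) /
    ∏ i, ((Omega (twist (N i)) : ℝ) * (Tam (E (N i)) : ℂ))

/-- `A_N(ℚ)` is finite and `Ш(A_N/ℚ)` has no element of order two -/
def RankZeroShaTwo {g : ℕ} (N : Fin g → ℕ) : Prop :=
  Finite (Pts N) ∧ ∀ x : ShaProd N, 2 • x = 0 → x = 0

/-- The formula modulo two for `A_N`: the equations are minimal, `L(A_N, s)` has an entire continuation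
`Λ`, and for every valuation `v` of `ℂ` above two the predicted order `z` of `Ш` has `v z ≤ 1`, with
equality if and only if `A_N(ℚ)` is finite and `Ш(A_N/ℚ)[2] = 0`. -/
def FormulaModTwo {g : ℕ} (N : Fin g → ℕ) : Prop :=
  (∀ (i : Fin g) (v : HeightOneSpectrum (𝓞 ℚ)), MinimalAt (E (N i)) v) ∧
  ∃ Λ : ℂ → ℂ, IsL N Λ ∧
    ∀ (Γ : Type) [LinearOrderedCommGroupWithZero Γ] (v : Valuation ℂ Γ), v 2 < 1 →
      v (anOrder N (Λ 1)) ≤ 1 ∧ (v (anOrder N (Λ 1)) = 1 ↔ RankZeroShaTwo N)

/-- The 2-part of the formula for `A_N`, with both sides units at two: `A_N(ℚ)` is finite, the 2-primary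
part of `Ш(A_N/ℚ)` is zero, `L(A_N, s)` has an entire continuation `Λ` with `Λ 1 ≠ 0`, and the predicted
order of `Ш` is a unit at all the primes above two. -/
def TwoPartProd {g : ℕ} (N : Fin g → ℕ) : Prop :=
  Finite (Pts N) ∧ (∀ (n : ℕ) (x : ShaProd N), 2 ^ n • x = 0 → x = 0) ∧
    ∃ Λ : ℂ → ℂ, IsL N Λ ∧ Λ 1 ≠ 0 ∧
      ∃ m : ℤ, Odd m ∧ _root_.IsIntegral ℤ (m * anOrder N (Λ 1)) ∧
        _root_.IsIntegral ℤ (m * (anOrder N (Λ 1))⁻¹)

/-- the elements of `S` which are primes `≡ 1 mod 4` do not divide the `N_i`, and are squares modulo the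
prime factors of the `N_i` -/
def Squares {g : ℕ} (N : Fin g → ℕ) (S : Set ℕ) : Prop :=
  ∀ p ∈ S, p.Prime → p % 4 = 1 → ∀ i, ¬ p ∣ N i ∧ ∀ l : ℕ, l.Prime → l ∣ N i → IsSquare (p : ZMod l)

/-- the number of the `D ≤ X` in the family is between two positive constants times
`X (log log X)^(k+m-1) / log X`, and the proportion of those for which the 2-part of the formula holds,
with both sides units at two, for the quadratic twist by `D` of `A_N` tends to
`∏_{i < ⌈k/2⌉} (1 - 2^{-(2i+1)})` -/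
def Law {g : ℕ} (N : Fin g → ℕ) (S : Set ℕ) (k m : ℕ) : Prop :=
  (∃ (c C : ℝ) (X₀ : ℕ), 0 < c ∧ 0 < C ∧ ∀ X : ℕ, X₀ ≤ X →
    c * (X * Real.log (Real.log X) ^ (k + m - 1) / Real.log X) ≤ (count (Family S k m) X : ℝ) ∧
    (count (Family S k m) X : ℝ) ≤ C * (X * Real.log (Real.log X) ^ (k + m - 1) / Real.log X)) ∧
  Tendsto (fun X : ℕ => (count (fun D => Family S k m D ∧ TwoPartProd fun i => N i * D) X : ℝ) /
    (count (Family S k m) X : ℝ)) atTop
    (𝓝 (∏ i ∈ range ((k + 1) / 2), (1 - (1 / 2 : ℝ) ^ (2 * i + 1))))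

section proof

open Pool.Agent.Results.MP_4a9ea6_nt.TwoPartTwistsX49 (two_iff mat core)
open Pool.Agent.R413.SQ (Gd Sol cu)
open Pool.Agent.Y703.CQ (nr)

theorem finite_iff {g : ℕ} (N : Fin g → ℕ) :
    Finite (Pts N) ↔ ∀ i, Finite (E (N i)).toAffine.Point := by
  classical
  constructor
  · intro h i
    refine Finite.of_injective
      (fun P : (E (N i)).toAffine.Point => (Function.update (fun _ => 0) i P : Pts N)) ?_
    intro P Q hPQ
    have := congrFun hPQ i
    simpa using this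
  · intro h
    exact Pi.finite

theorem sha_iff {g : ℕ} (N : Fin g → ℕ) (n : ℕ) :
    (∀ x : ShaProd N, n • x = 0 → x = 0) ↔ ∀ (i : Fin g) (x : Sha (E (N i))), n • x = 0 → x = 0 := by
  classical
  constructor
  · intro h i x hx
    have h1 : n • (Pi.single i x : ShaProd N) = 0 := by
      funext j
      rw [Pi.smul_apply, Pi.zero_apply]
      by_cases hj : j = i
      · subst hj
        rw [Pi.single_eq_same, hx]
      · rw [Pi.single_eq_of_ne hj, smul_zero]
    have h2 := congrFun (h _ h1) i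
    simpa using h2
  · intro h x hx
    funext i
    refine h i (x i) ?_
    have := congrFun hx i
    simpa using this

theorem rank_iff {g : ℕ} {N : Fin g → ℕ} (hN : ∀ i, InClass (N i)) :
    RankZeroShaTwo N ↔ ∀ i, (mat (N i)).det ≠ 0 := by
  unfold RankZeroShaTwo
  rw [finite_iff, sha_iff, ← forall_and]
  refine forall_congr' fun i => ?_
  rw [← (core (hN i)).2.2.2.1]
  simp only [two_nsmul]

theorem an_prod {g : ℕ} (N : Fin g → ℕ) (Λ : Fin g → ℂ → ℂ) :
    anOrder N (∏ i, Λ i 1) =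
      ∏ i, Pool.Agent.Results.MP_4a9ea6_nt.TwoPartTwistsX49.anOrder (N i) (Λ i 1) := by
  unfold anOrder Pool.Agent.Results.MP_4a9ea6_nt.TwoPartTwistsX49.anOrder
  rw [Finset.prod_div_distrib, ← Finset.prod_mul_distrib]

theorem isL_prod {g : ℕ} (N : Fin g → ℕ) {Λ : Fin g → ℂ → ℂ} (h1 : ∀ i, Differentiable ℂ (Λ i))
    (h2 : ∀ i, ∀ s : ℂ, 2 < s.re → Λ i s = (E (N i)).LSeries s) :
    IsL N fun s => ∏ i, Λ i s := by
  refine ⟨?_, fun s hs => Finset.prod_congr rfl fun i _ => h2 i s hs⟩
  intro s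
  refine DifferentiableAt.fun_finsetProd fun i _ => (h1 i) s

theorem formula {g : ℕ} {N : Fin g → ℕ} (hN : ∀ i, InClass (N i)) : FormulaModTwo N := by
  classical
  have hc := fun i => core (hN i)
  choose Λ h1 h2 _ h4 _ using fun i => (hc i).2.2.2.2.2.2
  refine ⟨fun i => (hc i).1, fun s => ∏ i, Λ i s, isL_prod N h1 h2, fun Γ _ v hv => ?_⟩
  have e : v (anOrder N (∏ i, Λ i 1)) =
      ∏ i, v (Pool.Agent.Results.MP_4a9ea6_nt.TwoPartTwistsX49.anOrder (N i) (Λ i 1)) := by
    rw [an_prod, map_prod]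
  have hle : ∀ i, v (Pool.Agent.Results.MP_4a9ea6_nt.TwoPartTwistsX49.anOrder (N i) (Λ i 1)) ≤ 1 :=
    fun i => (h4 i Γ v hv).1
  show v (anOrder N (∏ i, Λ i 1)) ≤ 1 ∧ (v (anOrder N (∏ i, Λ i 1)) = 1 ↔ RankZeroShaTwo N)
  rw [e, rank_iff hN]
  refine ⟨Finset.prod_le_one' fun i _ => hle i, fun h i => ?_, fun h => ?_⟩
  · refine ((h4 i Γ v hv).2).1 (le_antisymm (hle i) ?_)
    rw [← h, ← Finset.mul_prod_erase univ _ (mem_univ i)]
    exact mul_le_of_le_one_right' (Finset.prod_le_one' fun j _ => hle j)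
  · exact Finset.prod_eq_one fun i _ => ((h4 i Γ v hv).2).2 (h i)

theorem two_prod {g : ℕ} {N : Fin g → ℕ} (hN : ∀ i, InClass (N i)) :
    TwoPartProd N ↔ ∀ i, TwoPart (N i) := by
  classical
  constructor
  · rintro ⟨h1, h2, -⟩ i
    have h3 := h2 1
    rw [pow_one] at h3
    exact (two_iff (hN i)).2 ((rank_iff hN).1 ⟨h1, h3⟩ i)
  · intro h
    choose h1 h2 Λ h3 h4 h5 m h6 h7 h8 using h
    refine ⟨(finite_iff N).2 h1, fun n => (sha_iff N (2 ^ n)).2 fun i x hx => h2 i n x hx,
      fun s => ∏ i, Λ i s, isL_prod N h3 h4, Finset.prod_ne_zero_iff.2 fun i _ => h5 i,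
      ∏ i, m i, Finset.prod_induction _ Odd (fun a b => Odd.mul) odd_one fun i _ => h6 i, ?_, ?_⟩
    · have e : ((∏ i, m i : ℤ) : ℂ) * anOrder N (∏ i, Λ i 1) = ∏ i, ((m i : ℂ) *
          Pool.Agent.Results.MP_4a9ea6_nt.TwoPartTwistsX49.anOrder (N i) (Λ i 1)) := by
        rw [an_prod, Finset.prod_mul_distrib]
        push_cast
        rfl
      show _root_.IsIntegral ℤ (((∏ i, m i : ℤ) : ℂ) * anOrder N (∏ i, Λ i 1))
      rw [e]
      exact IsIntegral.prod _ fun i _ => h7 i
    · have e : ((∏ i, m i : ℤ) : ℂ) * (anOrder N (∏ i, Λ i 1))⁻¹ = ∏ i, ((m i : ℂ) *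
          (Pool.Agent.Results.MP_4a9ea6_nt.TwoPartTwistsX49.anOrder (N i) (Λ i 1))⁻¹) := by
        rw [an_prod, Finset.prod_mul_distrib, Finset.prod_inv_distrib]
        push_cast
        rfl
      show _root_.IsIntegral ℤ (((∏ i, m i : ℤ) : ℂ) * (anOrder N (∏ i, Λ i 1))⁻¹)
      rw [e]
      exact IsIntegral.prod _ fun i _ => h8 i

/-- one half of the splitting of the matrix -/
theorem gd_left {f : ℕ → ZMod 2} {A B : Finset ℕ} (hd : Disjoint A B)
    (hAB : ∀ a ∈ A, ∀ b ∈ B, nr a b = 0) (hBA : ∀ a ∈ A, ∀ b ∈ B, nr b a = 0)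
    (h : Gd f (A ∪ B)) : Gd f A := by
  classical
  intro x hx p hp hp1
  set y : ℕ → ZMod 2 := fun q => if q ∈ A then x q else 0 with hy
  have hyA : ∀ q ∈ A, y q = x q := fun q hq => if_pos hq
  have hyB : ∀ q ∈ B, y q = 0 := fun q hq => if_neg fun h' => Finset.disjoint_left.1 hd h' hq
  have hcA : ∀ q ∈ A, cu y q = cu x q := fun q hq => by
    unfold cu
    rw [hyA q hq]
  have hcB : ∀ q ∈ B, cu y q = 0 := fun q hq => by
    unfold cu
    rw [hyB q hq, ite_self]
  have hs : Sol f (A ∪ B) y := by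
    intro r hr hr1
    rw [Finset.sum_union hd]
    rcases Finset.mem_union.1 hr with hrA | hrB
    · have e1 : ∑ q ∈ B, nr r q * (cu y q + y r) = 0 :=
        Finset.sum_eq_zero fun q hq => by rw [hAB r hrA q hq, zero_mul]
      have e2 : ∑ q ∈ A, nr r q * (cu y q + y r) = ∑ q ∈ A, nr r q * (cu x q + x r) :=
        Finset.sum_congr rfl fun q hq => by rw [hcA q hq, hyA r hrA]
      rw [e1, e2, hyA r hrA, add_zero]
      exact hx r hrA hr1
    · have e1 : ∑ q ∈ A, nr r q * (cu y q + y r) = 0 :=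
        Finset.sum_eq_zero fun q hq => by rw [hBA q hq r hrB, zero_mul]
      have e2 : ∑ q ∈ B, nr r q * (cu y q + y r) = 0 :=
        Finset.sum_eq_zero fun q hq => by rw [hcB q hq, hyB r hrB, add_zero, mul_zero]
      rw [e1, e2, hyB r hrB, mul_zero, add_zero, add_zero]
  rw [← hyA p hp]
  exact h y hs p (Finset.mem_union_left _ hp) hp1

theorem gd_union {f : ℕ → ZMod 2} {A B : Finset ℕ} (hd : Disjoint A B)
    (hAB : ∀ a ∈ A, ∀ b ∈ B, nr a b = 0) (hBA : ∀ a ∈ A, ∀ b ∈ B, nr b a = 0) :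
    Gd f (A ∪ B) ↔ Gd f A ∧ Gd f B := by
  classical
  constructor
  · intro h
    refine ⟨gd_left hd hAB hBA h, gd_left hd.symm (fun b hb a ha => hBA a ha b hb)
      (fun b hb a ha => hAB a ha b hb) ?_⟩
    rw [Finset.union_comm]
    exact h
  · rintro ⟨hA, hB⟩ x hx p hp hp1
    have hxA : Sol f A x := by
      intro r hr hr1
      have h1 := hx r (Finset.mem_union_left _ hr) hr1
      rw [Finset.sum_union hd] at h1
      have e1 : ∑ q ∈ B, nr r q * (cu x q + x r) = 0 :=
        Finset.sum_eq_zero fun q hq => by rw [hAB r hr q hq, zero_mul]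
      rw [e1, add_zero] at h1
      exact h1
    have hxB : Sol f B x := by
      intro r hr hr1
      have h1 := hx r (Finset.mem_union_right _ hr) hr1
      rw [Finset.sum_union hd] at h1
      have e1 : ∑ q ∈ A, nr r q * (cu x q + x r) = 0 :=
        Finset.sum_eq_zero fun q hq => by rw [hBA q hq r hr, zero_mul]
      rw [e1, zero_add] at h1
      exact h1
    rcases Finset.mem_union.1 hp with h1 | h1
    · exact hA x hxA p h1 hp1
    · exact hB x hxB p h1 hp1

/-- the 2-part for `M D`, for `D` whose prime factors are squares modulo those of `M` -/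
theorem two_mul_iff {M D : ℕ} (hM : InClass M) (hD : InClass D) (hMD : ∀ p ∈ D.primeFactors, ¬ p ∣ M)
    (hsq : ∀ p ∈ D.primeFactors, ∀ l : ℕ, l.Prime → l ∣ M → IsSquare (p : ZMod l)) :
    InClass (M * D) ∧ (TwoPart (M * D) ↔ TwoPart M ∧ TwoPart D) := by
  classical
  have hM0 := hM.1.ne_zero
  have hD0 := hD.1.ne_zero
  have hco : Nat.Coprime M D := by
    rw [Nat.coprime_comm]
    refine Nat.Coprime.symm ?_
    rw [Nat.coprime_iff_gcd_eq_one]
    by_contra hne
    obtain ⟨p, hp, hpd⟩ := Nat.exists_prime_and_dvd hne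
    have h1 := hpd.trans (Nat.gcd_dvd_left M D)
    have h2 := hpd.trans (Nat.gcd_dvd_right M D)
    exact hMD p (Nat.mem_primeFactors.2 ⟨hp, h2, hD0⟩) h1
  have hpf : (M * D).primeFactors = M.primeFactors ∪ D.primeFactors :=
    Nat.primeFactors_mul hM0 hD0
  have hMDc : InClass (M * D) := by
    refine ⟨(Nat.squarefree_mul hco).2 ⟨hM.1, hD.1⟩, fun p hp => ?_⟩
    rw [hpf, Finset.mem_union] at hp
    rcases hp with hp | hp
    · exact hM.2 p hp
    · exact hD.2 p hp
  refine ⟨hMDc, ?_⟩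
  rw [Pool.Agent.Results.MP_92892c_nt.FullClassTwoPartX49.two_gd hMDc,
    Pool.Agent.Results.MP_92892c_nt.FullClassTwoPartX49.two_gd hM,
    Pool.Agent.Results.MP_92892c_nt.FullClassTwoPartX49.two_gd hD, hpf]
  have h0 : ∀ a ∈ M.primeFactors, ∀ b ∈ D.primeFactors, nr a b = 0 := by
    intro a ha b hb
    unfold nr
    rw [if_pos (hsq b hb a (Nat.prime_of_mem_primeFactors ha) (Nat.dvd_of_mem_primeFactors ha))]
  refine gd_union hco.disjoint_primeFactors h0 fun a ha b hb => ?_
  rw [Pool.Agent.R413.SQ.BOX.nr_symm (Nat.prime_of_mem_primeFactors hb) (hD.2 b hb)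
    (Nat.prime_of_mem_primeFactors ha) (by have := hM.2 a ha; omega)]
  exact h0 a ha b hb

/-- the 2-part for the twists of `A_N` -/
theorem twist_iff {g : ℕ} (hg : 1 ≤ g) {N : Fin g → ℕ} (hN : ∀ i, InClass (N i)) (h2 : TwoPartProd N)
    {S : Set ℕ} (hS : Squares N S) {k m D : ℕ} (hD : Family S k m D) :
    TwoPartProd (fun i => N i * D) ↔ TwoPart D := by
  have h1 : ∀ i, InClass (N i * D) ∧ (TwoPart (N i * D) ↔ TwoPart (N i) ∧ TwoPart D) := fun i =>
    two_mul_iff (hN i) hD.1
      (fun p hp => (hS p (hD.2.1 p hp) (Nat.prime_of_mem_primeFactors hp) (hD.1.2 p hp) i).1)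
      (fun p hp => (hS p (hD.2.1 p hp) (Nat.prime_of_mem_primeFactors hp) (hD.1.2 p hp) i).2)
  rw [two_prod fun i => (h1 i).1]
  constructor
  · intro h
    exact ((h1 ⟨0, hg⟩).2.1 (h ⟨0, hg⟩)).2
  · intro h i
    exact (h1 i).2.2 ⟨(two_prod hN).1 h2 i, h⟩

theorem two_inert {M : ℕ} (hM : InClass M) (h : ∀ p ∈ M.primeFactors, Inert p) : TwoPart M := by
  rw [Pool.Agent.Results.MP_92892c_nt.FullClassTwoPartX49.two_gd hM]
  intro x _ p hp hp1
  rw [Pool.Agent.Results.MP_92892c_nt.TwoPartFixedNumber.mk_split] at hp1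
  have h1 := h p hp
  unfold Splits at hp1
  unfold Inert at h1
  omega

end proof

/-- **Main theorem.**
(1) The formula modulo two for all the products `A_N`, and the 2-part with both sides units at two
holds for `A_N` if and only if it holds for all its factors.
(2) The exact proportion for the quadratic twists of `A_N` in thin families, in every dimension.
(3) The 2-part with both sides units at two holds for `A_N` if the prime factors of the `N_i` are inert in
`ℚ(√-7)`.
(4) For every `N` the primes which are `1` modulo the prime factors of the `N_i` are admissible. -/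
theorem result :
    (∀ (g : ℕ) (N : Fin g → ℕ), (∀ i, InClass (N i)) →
      FormulaModTwo N ∧ (TwoPartProd N ↔ ∀ i, TwoPart (N i))) ∧
    (∀ (g : ℕ) (N : Fin g → ℕ), 1 ≤ g → (∀ i, InClass (N i)) → TwoPartProd N →
      ∀ (S : Set ℕ) (k m : ℕ), 1 ≤ m → Squares N S → Rich S k → Law N S k m) ∧
    (∀ (g : ℕ) (N : Fin g → ℕ), (∀ i, InClass (N i) ∧ ∀ p : ℕ, p.Prime → p ∣ N i → Inert p) →
      TwoPartProd N) ∧
    ∀ (g : ℕ) (N : Fin g → ℕ), (∀ i, InClass (N i)) →
      Squares N {p | ∀ (i : Fin g) (l : ℕ), l.Prime → l ∣ N i → p % l = 1} ∧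
      ∀ k : ℕ, Rich {p | ∀ (i : Fin g) (l : ℕ), l.Prime → l ∣ N i → p % l = 1} k := by
  classical
  refine ⟨fun g N hN => ⟨formula hN, two_prod hN⟩, fun g N hg hN h2 S k m hm hS hrich => ?_,
    fun g N hN => (two_prod fun i => (hN i).1).2 fun i => two_inert (hN i).1 fun p hp =>
      (hN i).2 p (Nat.prime_of_mem_primeFactors hp) (Nat.dvd_of_mem_primeFactors hp),
    fun g N hN => ⟨?_, fun k => ?_⟩⟩
  · have h := (Pool.Agent.Results.MP_92892c_nt.TwoPartFixedNumber.result).1 S k m hm hrich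
    refine ⟨h.1, h.2.congr fun X => ?_⟩
    have e : count (fun D => Family S k m D ∧ TwoPart D) X =
        count (fun D => Family S k m D ∧ TwoPartProd fun i => N i * D) X := by
      unfold count
      refine Nat.card_congr (Equiv.subtypeEquivRight fun D => ?_)
      refine and_congr_right fun _ => and_congr_right fun _ => and_congr_right fun hD => ?_
      exact (twist_iff hg hN h2 hS hD).symm
    rw [e]
  · intro p hp hpp hp4 i
    refine ⟨fun hd => ?_, fun l hl hld => ?_⟩
    · have h1 : p % p = 1 := hp i p hpp hd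
      rw [Nat.mod_self] at h1
      exact absurd h1 (by norm_num)
    · have h2 : p % l = 1 := hp i l hl hld
      have h1 : (p : ZMod l) = 1 := by
        have h3 : ((p % l : ℕ) : ZMod l) = (p : ZMod l) := ZMod.natCast_mod p l
        rw [← h3, h2, Nat.cast_one]
      rw [h1]
      exact ⟨1, (one_mul 1).symm⟩
  · set q : ℕ := ∏ i, N i with hqd
    have hq : Nat.Coprime q 28 := by
      refine Nat.Coprime.prod_left fun i _ => ?_
      rw [Nat.coprime_iff_gcd_eq_one]
      by_contra hne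
      obtain ⟨p, hp, hpd⟩ := Nat.exists_prime_and_dvd hne
      have h1 := hpd.trans (Nat.gcd_dvd_left _ _)
      have h2 := hpd.trans (Nat.gcd_dvd_right _ _)
      have h3 : p % 4 = 1 := (hN i).2 p (Nat.mem_primeFactors.2 ⟨hp, h1, (hN i).1.ne_zero⟩)
      have h4 : p ∣ 2 ^ 2 * 7 := h2
      rcases (hp.dvd_mul).1 h4 with h5 | h5
      · have h6 := (Nat.prime_dvd_prime_iff_eq hp Nat.prime_two).1 (hp.dvd_of_dvd_pow h5)
        omega
      · have h6 := (Nat.prime_dvd_prime_iff_eq hp (by norm_num)).1 h5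
        omega
    have h1 := (Pool.Agent.Results.MP_92892c_nt.TwoPartFixedNumber.result).2.1 q 1 hq
      (Nat.coprime_one_left _) k
    have key : ∀ p : ℕ, p % q = 1 % q →
        ∀ (i : Fin g) (l : ℕ), l.Prime → l ∣ N i → p % l = 1 := by
      intro p hp i l hl hld
      have h2 : l ∣ q := hld.trans (Finset.dvd_prod_of_mem _ (mem_univ i))
      have h3 : p % l = 1 % l := (Nat.ModEq.of_dvd h2 hp :)
      rw [h3]
      exact Nat.mod_eq_of_lt hl.one_lt
    have mono : ∀ T' : ℕ → Prop,
        Pool.Agent.Results.MP_92892c_nt.TwoPartFixedNumber.Dense {p | p % q = 1 % q} T' →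
        Pool.Agent.Results.MP_92892c_nt.TwoPartFixedNumber.Dense
          {p | ∀ (i : Fin g) (l : ℕ), l.Prime → l ∣ N i → p % l = 1} T' := by
      rintro T' ⟨δ, Y₀, hδ, h⟩
      refine ⟨δ, Y₀, hδ, fun Y hY => (h Y hY).trans ?_⟩
      have : Finite {p : ℕ // p ≤ Y ∧
          p ∈ {p | ∀ (i : Fin g) (l : ℕ), l.Prime → l ∣ N i → p % l = 1} ∧ p.Prime ∧ p % 4 = 1 ∧
            T' p} :=
        Finite.of_injective (fun p => (⟨p.1, Nat.lt_succ_of_le p.2.1⟩ : Fin (Y + 1)))
          fun a b hab => Subtype.ext (congrArg (fun z : Fin (Y + 1) => (z : ℕ)) hab)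
      exact_mod_cast Nat.card_le_card_of_injective
        (fun p : {p : ℕ // p ≤ Y ∧ p ∈ {p | p % q = 1 % q} ∧ p.Prime ∧ p % 4 = 1 ∧ T' p} =>
          (⟨p.1, p.2.1, key p.1 p.2.2.1, p.2.2.2⟩ :
            {p : ℕ // p ≤ Y ∧
              p ∈ {p | ∀ (i : Fin g) (l : ℕ), l.Prime → l ∣ N i → p % l = 1} ∧ p.Prime ∧
              p % 4 = 1 ∧ T' p}))
        fun a b hab => Subtype.ext (congrArg (fun z => z.1) hab)
    exact ⟨h1.1.imp id (mono _), mono _ h1.2⟩

end Pool.Agent.Results.MP_dfae13_nt.TwistsOfProducts
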