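import Pool.Agent.P8H9.PV.Dir

/-!
# MP_dfae13_nt, Q1 on average: the order of vanishing at `s = 1` for Jacobians with prescribed points

Let `f ∈ ℤ[x]` be monic of odd degree `d = 2g + 1`, let `α_1, …, α_n` be distinct integers with
`f(α_i) ≠ 0`, and `k ≥ 2`, `n + k ≤ d`.  The members of the family are the curves of genus `g`
`C_c : y² = f(x) + (x - α_1) ⋯ (x - α_n) (c_{k-1} x^{k-1} + … + c_1 x + c_0)`, `c ∈ ℤ^k`,
with Jacobians `A_c`; they pass through the points `(α_i, ± √f(α_i))`, which are rational if `f(α_i)`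
is a square.  (For `n + k = d` these are all curves `y² = F(x)`, `F` monic of degree `d`, with
`F(α_i) = f(α_i)`.)  The functions `L(A_c, s)` (Euler products over the primes of good reduction of the
equation) converge for `Re s > 3/2`.  The theorem says that their mean over `c` continues
analytically to a neighbourhood of `Re s ≥ 1` and vanishes at `s = 1` to order exactly the number of the
prescribed points `(α_i, √f(α_i))` which are rational, as the conjecture of Birch and Swinnerton-Dyer
predicts if these points generate the Mordell-Weil groups up to a contribution of mean zero.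
-/

set_option autoImplicit false

open Polynomial Filter Topology Pool.Agent.P8H9.AV Pool.Agent.P8H9.PV

namespace Pool.Agent.Results.MP_dfae13_nt.VanishingOfTheMean

/-- **The mean of `L(A_c, s)` vanishes at `s = 1` exactly to the order the prescribed points predict.**
Let `f ∈ ℤ[x]` be monic of odd degree, `α_1, …, α_n` distinct integers, `f(α_i) ≠ 0`, `k ≥ 2`,
`n + k ≤ deg f`, `C_c : y² = f(x) + ∏ᵢ (x - α_i) ∑_{j < k} c_j x^j`.  There are functions `M`, `N` with
the following properties.

* For `Re s > 3/2` the mean of `L(H¹(C_c), s)` over the `c ∈ ℤ^k` in a box `|c_j| ≤ H_j` tends to `M(s)`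
  as all `H_j` tend to infinity.
* `M` is meromorphic for `Re s > 1/2 + 1/(k + 1)` and analytic at all points with `Re s ≥ 1`.
* The order of vanishing of `M` at `s = 1` is the number of `i` for which `f(α_i)` is a square.
* `M(s) = N(s) / ∏ᵢ L(s, (f(α_i)/·))` for `Re s > 1/2 + 1/(k + 1)` off the point `1` and the zeros of the
  Dirichlet `L`-functions, and `N` is holomorphic for `Re s > 1/2 + 1/(k + 1)` and real and positive for
  real `s > 1/2 + 1/(k + 1)`. -/
theorem result (f : ℤ[X]) (hf : f.Monic) (hodd : Odd f.natDegree) (n k : ℕ) (α : Fin n → ℤ)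
    (hα : Function.Injective α) (hD : ∀ i, f.eval (α i) ≠ 0) (hk2 : 2 ≤ k)
    (hk : n + k ≤ f.natDegree) :
    ∃ M N : ℂ → ℂ,
      (∀ s : ℂ, 3 / 2 < s.re →
        Tendsto (fun H : Fin k → ℕ =>
          mean H fun c => LH1 (Pool.Agent.P8H9.PV.member f α c) s) atTop
          (𝓝 (M s))) ∧
      MeromorphicOn M {s : ℂ | 1 / 2 + 1 / (k + 1 : ℝ) < s.re} ∧
      (∀ s : ℂ, 1 ≤ s.re → AnalyticAt ℂ M s) ∧
      analyticOrderAt M 1 = Nat.card {i : Fin n // IsSquare (f.eval (α i))} ∧
      (∀ s : ℂ, 1 / 2 + 1 / (k + 1 : ℝ) < s.re → s ≠ 1 → (∀ i, Lq (f.eval (α i)) s ≠ 0) →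
        M s = N s / ∏ i, Lq (f.eval (α i)) s) ∧
      DifferentiableOn ℂ N {s : ℂ | 1 / 2 + 1 / (k + 1 : ℝ) < s.re} ∧
      ∀ σ : ℝ, 1 / 2 + 1 / (k + 1 : ℝ) < σ → ∃ r : ℝ, 0 < r ∧ N (σ : ℂ) = r :=
  ⟨MA f α k, NA f α k,
    fun _ hs => by
      rw [← MA_eq hf hodd hD hk hs]
      exact (Pool.Agent.P8H9.PV.mean_L hf hodd hk hs).1,
    MA_mero hf hodd hα hD (by omega) hk,
    fun _ hs => MA_an hf hodd hα hD hk2 hk hs,
    MA_order hf hodd hα hD hk2 hk,
    fun _ _ h1 h2 => MA_mul hD h1 h2,
    NA_diff hf hodd hα hD (by omega) hk,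
    fun _ hσ => NA_pos hf hodd hα hD (by omega) hk hσ⟩

end Pool.Agent.Results.MP_dfae13_nt.VanishingOfTheMean
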